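import Pool.Agent.Lib.MP_05992d_an.Main

/-!
The supremum is attained.
-/

namespace Pool.Agent.Lib.MP_05992d_an

open Filter Topology Set NormedSpace
open scoped Pointwise

variable {X : Type*} [NormedAddCommGroup X] [NormedSpace ℂ X]
  {T : TripleProduct (StrongDual ℂ X)}

namespace JBW

variable (h : JBW T)
include h

theorem exists_seq' [CompleteSpace X] {A : Set X} {R ε : ℝ} {η : ℕ → ℝ} (hA : ∀ φ ∈ A, ‖φ‖ ≤ R)
    (hR : 0 ≤ R) (hη : ∀ n, 0 ≤ η n) (hω : ∀ n, ENNReal.ofReal (η n) < deBlasi A) (hε : 0 < ε) :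
    ∃ (d : ℕ → StrongDual ℂ X) (φ : ℕ → X), (∀ S, OrthOn T S d) ∧ (∀ n, φ n ∈ A) ∧
      (∀ n, η n - ε * (1 / 2) ^ n ≤ ‖d n (φ n)‖) ∧ ∀ j n, j < n → ‖d n (φ j)‖ ≤ ε * (1 / 2) ^ n := by
  have key : ∀ m (p : (ℕ → StrongDual ℂ X) × (ℕ → X)), OrthOn T (Finset.range m) p.1 →
      ∃ q : (ℕ → StrongDual ℂ X) × (ℕ → X), OrthOn T (Finset.range (m + 1)) q.1 ∧
        (∀ j < m, q.2 j = p.2 j ∧ Le T (q.1 j) (p.1 j) ∧
          ‖(p.1 j - q.1 j) (p.2 j)‖ ≤ ε * (1 / 2) ^ m) ∧ q.2 m ∈ A ∧ η m ≤ ‖q.1 m (q.2 m)‖ ∧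
        ∀ w, Le T w (q.1 m) → ∀ j < m, ‖w (p.2 j)‖ ≤ ε * (1 / 2) ^ m := by
    intro m p o
    obtain ⟨v, u, ψ, hψ, h1, h2, h3, h4⟩ := h.step hA hR (hη m) (hω m) (ε := ε * (1 / 2) ^ m)
      (by positivity) _ p.1 p.2 o
    simp only [Finset.mem_range] at h1 h4
    refine ⟨(Function.update v m u, Function.update p.2 m ψ), ⟨fun i hi => ?_,
      fun i hi j hj hij => ?_⟩, fun j hj => ?_, by simpa, by simpa, by simpa using h4⟩
    · rcases (Nat.lt_succ_iff.1 (Finset.mem_range.1 hi)).eq_or_lt with rfl | hi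
      · simpa
      · simpa [hi.ne] using (h1 i hi).1.tri
    · rcases (Nat.lt_succ_iff.1 (Finset.mem_range.1 hi)).eq_or_lt with rfl | hi <;>
        rcases (Nat.lt_succ_iff.1 (Finset.mem_range.1 hj)).eq_or_lt with rfl | hj
      · exact absurd rfl hij
      · simpa [hj.ne] using h.jb.orth_symm (h1 j hj).1.tri (h1 j hj).2.2
      · simpa [hi.ne] using (h1 i hi).2.2
      · simpa [hi.ne, hj.ne] using (h1 i hi).1.orth_of (h1 j hj).1 h.jb
          (o.2 i (Finset.mem_range.2 hi) j (Finset.mem_range.2 hj) hij)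
    · simp only [Function.update_of_ne hj.ne, true_and]
      exact ⟨(h1 j hj).1, (h1 j hj).2.1⟩
  choose nx k1 k2 using key
  let P : (m : ℕ) → {p : (ℕ → StrongDual ℂ X) × (ℕ → X) // OrthOn T (Finset.range m) p.1} :=
    fun m => Nat.rec ⟨0, by simp [OrthOn]⟩ (fun m p => ⟨nx m p.1 p.2, k1 m p.1 p.2⟩) m
  obtain ⟨v, φ, o, k⟩ : ∃ (v : ℕ → ℕ → StrongDual ℂ X) (φ : ℕ → ℕ → X),
      (∀ m, OrthOn T (Finset.range m) (v m)) ∧ ∀ m, (∀ j < m, φ (m + 1) j = φ m j ∧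
        Le T (v (m + 1) j) (v m j) ∧ ‖(v m j - v (m + 1) j) (φ m j)‖ ≤ ε * (1 / 2) ^ m) ∧
        φ (m + 1) m ∈ A ∧ η m ≤ ‖v (m + 1) m (φ (m + 1) m)‖ ∧
        ∀ w, Le T w (v (m + 1) m) → ∀ j < m, ‖w (φ m j)‖ ≤ ε * (1 / 2) ^ m :=
    ⟨fun m => (P m).1.1, fun m => (P m).1.2, fun m => (P m).2, fun m => k2 m (P m).1 (P m).2⟩
  have hφ : ∀ j m, j + 1 ≤ m → φ m j = φ (j + 1) j := fun j m hm => by
    induction hm with
    | refl => rfl
    | step hm ih => rw [((k _).1 j hm).1, ih]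
  choose d l1 l2 using fun j => h.lim_dec (t := fun n => v (j + 1 + n) j)
    fun n => ((k (j + 1 + n)).1 j (by omega)).2.1
  refine ⟨d, fun j => φ (j + 1) j, fun S => ⟨fun i _ => (l2 i 0).tri, fun i _ j _ hij => ?_⟩,
    fun n => (k n).2.1, fun n => ?_, fun j n hj => ?_⟩
  · have a1 := l2 i j
    have a2 := l2 j i
    rw [show j + 1 + i = i + 1 + j by ring] at a2
    exact a1.orth_of a2 h.jb ((o _).2 i (by simp; omega) j (by simp) hij)
  · have a1 : ∀ m, ‖(v (n + 1) n - v (n + 1 + m) n) (φ (n + 1) n)‖ ≤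
        ε * (1 / 2) ^ (n + 1) * ∑ i ∈ Finset.range m, (1 / 2) ^ i := by
      intro m
      induction m with
      | zero => simp
      | succ m ih =>
        have b1 := ((k (n + 1 + m)).1 n (by omega)).2.2
        rw [hφ n _ (by omega)] at b1
        have b3 := norm_add_le ((v (n + 1) n - v (n + 1 + m) n) (φ (n + 1) n))
          ((v (n + 1 + m) n - v (n + 1 + m + 1) n) (φ (n + 1) n))
        rw [← add_apply, sub_add_sub_cancel] at b3
        rw [Finset.sum_range_succ, ← add_assoc]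
        rw [pow_add _ (n + 1) m] at b1
        linarith
    have a2 := ((WL.const (v (n + 1) n)).sub (l1 n)).apply_le (B := ε * (1 / 2) ^ (n + 1) * 2)
      (Eventually.of_forall fun m => (a1 m).trans
        (mul_le_mul_of_nonneg_left (sum_geometric_two_le m) (by positivity)))
    have a3 := norm_add_le ((v (n + 1) n - d n) (φ (n + 1) n)) (d n (φ (n + 1) n))
    rw [← add_apply, sub_add_cancel] at a3
    rw [pow_succ] at a2
    linarith [(k n).2.2.1]
  · simpa only [hφ j n hj] using (k n).2.2.2 (d n) (l2 n 0) j hj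

theorem exists_attain [CompleteSpace X] {A : Set X} (hA : Bornology.IsBounded A) :
    ∃ e : ℕ → StrongDual ℂ X, IsDecreasingTripotents (fun a b c => T a b c) e ∧
      (∀ φ : X, Tendsto (fun n => e n φ) atTop (𝓝 0)) ∧
      deBlasi A ≤ liminf (fun n => ⨆ φ ∈ A, ‖e n φ‖ₑ) atTop := by
  rcases eq_or_ne (deBlasi A) 0 with h0 | h0
  · exact ⟨fun _ => 0, fun n => by simp, fun φ => by simp, h0 ▸ zero_le⟩
  obtain ⟨R, hR, hA⟩ := hA.exists_pos_norm_le
  obtain ⟨u, -, u1, u2⟩ := exists_seq_strictMono_tendsto' (pos_iff_ne_zero.2 h0)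
  have u3 : ∀ n, ENNReal.ofReal (u n).toReal = u n := fun n =>
    ENNReal.ofReal_toReal (u1 n).2.ne_top
  obtain ⟨d, φ, o, a1, a2, a3⟩ := h.exists_seq' (η := fun n => (u n).toReal) hA hR.le
    (fun n => ENNReal.toReal_nonneg) (fun n => by rw [u3]; exact (u1 n).2) one_pos
  obtain ⟨e, e1, e2, e3, l⟩ := h.exists_tail o
  refine ⟨e, e1, e2, ?_⟩
  have t1 : Tendsto (fun n : ℕ => ENNReal.ofReal (2 * (1 / 2) ^ n)) atTop (𝓝 0) := by
    simpa using ENNReal.tendsto_ofReal ((tendsto_pow_atTop_nhds_zero_of_lt_one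
      (r := (1 / 2 : ℝ)) (by norm_num) (by norm_num)).const_mul 2)
  have t2 := ENNReal.Tendsto.sub u2 t1 (Or.inr ENNReal.zero_ne_top)
  rw [tsub_zero] at t2
  rw [← t2.liminf_eq]
  refine liminf_le_liminf (Eventually.of_forall fun n => le_iSup₂_of_le (φ n) (a1 n) ?_)
  rw [← u3, ← ENNReal.ofReal_sub _ (by positivity), ← ofReal_norm]
  refine ENNReal.ofReal_le_ofReal ?_
  have b1 : ‖e (n + 1) (φ n)‖ ≤ (1 / 2) ^ (n + 1) * 2 := by
    refine (l (n + 1)).apply_le (Eventually.of_forall fun N => ?_)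
    rw [sum_apply]
    refine (norm_sum_le _ _).trans ((Finset.sum_le_sum fun k hk =>
      a3 n k (Finset.mem_Ico.1 hk).1).trans ?_)
    simp only [one_mul, Finset.sum_Ico_eq_sum_range, pow_add _ (n + 1), ← Finset.mul_sum]
    exact mul_le_mul_of_nonneg_left (sum_geometric_two_le _) (by positivity)
  have b2 := norm_sub_le (e n (φ n)) (e (n + 1) (φ n))
  rw [← sub_apply, show e n - e (n + 1) = d n by rw [e3 n, add_sub_cancel_right]] at b2
  rw [pow_succ] at b1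
  linarith [a2 n]

end JBW

end Pool.Agent.Lib.MP_05992d_an
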