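import Pool.Agent.Lib.MP_05992d_an.Bundled

/-!
Positivity of `L(a, a)` against states, and real spectra.
-/

namespace Pool.Agent.Lib.MP_05992d_an

open Filter Topology NormedSpace

section Algebra

variable {𝔸 : Type*} [NormedRing 𝔸] [NormedAlgebra ℂ 𝔸] [CompleteSpace 𝔸]

theorem pow_bound (B : 𝔸) {r r' : ℝ} (hr : 0 ≤ r) (h : ∀ z ∈ spectrum ℂ B, ‖z‖ ≤ r)
    (hr' : r < r') : ∃ K : ℝ, ∀ n : ℕ, ‖B ^ n‖ ≤ K * r' ^ n := by
  have h1 : spectralRadius ℂ B < ENNReal.ofReal r' := by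
    refine lt_of_le_of_lt (iSup₂_le fun z hz => ?_) ((ENNReal.ofReal_lt_ofReal_iff (by linarith)).2 hr')
    rw [← enorm_eq_nnnorm, ← ofReal_norm]
    exact ENNReal.ofReal_le_ofReal (h z hz)
  have h2 := (spectrum.pow_norm_pow_one_div_tendsto_nhds_spectralRadius B).eventually
    (gt_mem_nhds h1)
  have hp : 0 < r' := by linarith
  have h3 : ∀ᶠ n : ℕ in atTop, ‖B ^ n‖ / r' ^ n ≤ 1 := by
    filter_upwards [h2, eventually_gt_atTop 0] with n hn hn0
    rw [ENNReal.ofReal_lt_ofReal_iff hp] at hn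
    rw [div_le_one (by positivity)]
    have := pow_le_pow_left₀ (by positivity) hn.le n
    rwa [one_div, Real.rpow_inv_natCast_pow (norm_nonneg _) hn0.ne'] at this
  obtain ⟨K, hK⟩ := IsBoundedUnder.bddAbove_range (isBoundedUnder_of_eventually_le h3)
  exact ⟨K, fun n => (div_le_iff₀ (by positivity)).1 (hK ⟨n, rfl⟩)⟩

theorem norm_exp_smul_le (B : 𝔸) {K r : ℝ} (h : ∀ n : ℕ, ‖B ^ n‖ ≤ K * r ^ n) (z : ℂ) :
    ‖exp (z • B)‖ ≤ K * Real.exp (‖z‖ * r) := by
  have h1 := exp_series_hasSum_exp' (𝕂 := ℂ) (z • B)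
  have h2 := (exp_series_hasSum_exp' (𝕂 := ℝ) (‖z‖ * r)).mul_left K
  rw [Real.exp_eq_exp_ℝ]
  refine h1.norm_le_of_bounded h2 fun n => ?_
  rw [smul_pow, norm_smul, norm_smul, norm_pow, norm_inv, Complex.norm_natCast, smul_eq_mul,
    mul_pow]
  have := mul_le_mul_of_nonneg_left (h n) (show 0 ≤ ((n.factorial : ℝ))⁻¹ * ‖z‖ ^ n by positivity)
  linarith

end Algebra

theorem re_nonpos_of_deriv {g : ℂ → ℂ} {g' : ℂ} (hg : HasDerivAt g g' 0) (h0 : g 0 = 1)
    (h : ∀ x : ℝ, 0 < x → ‖g x‖ ≤ 1) : g'.re ≤ 0 := by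
  have h1 : HasDerivAt (fun x : ℝ => (g x).re) g'.re 0 := by
    have := HasDerivAt.real_of_complex (z := 0) (e := g) (e' := g') (by simpa using hg)
    simpa using this
  have h2 := (hasDerivAt_iff_tendsto_slope_zero.1 h1).mono_left (nhdsGT_le_nhdsNE 0)
  refine le_of_tendsto h2 ?_
  filter_upwards [self_mem_nhdsWithin] with x hx
  have := (Complex.re_le_norm (g x)).trans (h x hx)
  simp only [zero_add, Complex.ofReal_zero, h0, Complex.one_re, smul_eq_mul]
  exact mul_nonpos_of_nonneg_of_nonpos (inv_pos.2 hx).le (by linarith)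

variable {M : Type*} [NormedAddCommGroup M] [NormedSpace ℂ M] [CompleteSpace M]

/-- `f` is a state at `u`. -/
structure St (f : M →L[ℂ] ℂ) (u : M) : Prop where
  nf : ‖f‖ ≤ 1
  nu : ‖u‖ ≤ 1
  one : f u = 1

omit [CompleteSpace M] in
theorem St.norm_le {f : M →L[ℂ] ℂ} {u : M} (h : St f u) (x : M) : ‖f x‖ ≤ ‖x‖ :=
  (f.le_of_opNorm_le h.nf x).trans (by simp)

theorem deriv_state (f : M →L[ℂ] ℂ) (u : M) (B : M →L[ℂ] M) (z : ℂ) :
    HasDerivAt (fun z : ℂ => f (exp (z • B) u)) (f ((exp (z • B) * B) u)) z :=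
  ((f.comp (ContinuousLinearMap.apply ℂ M u)).hasFDerivAt.comp_hasDerivAt z
    (hasDerivAt_exp_smul_const B z))

theorem St.im_eq_zero {f : M →L[ℂ] ℂ} {u : M} (h : St f u) {L : M →L[ℂ] M}
    (hL : ∀ (t : ℝ) x, ‖exp (((t : ℂ) * Complex.I) • L) x‖ = ‖x‖) : (f (L u)).im = 0 := by
  have key : ∀ s : ℝ, (s * Complex.I * f (L u)).re ≤ 0 := by
    intro s
    have := re_nonpos_of_deriv (deriv_state f u ((s * Complex.I) • L) 0) (by simp [h.one])
      fun x _ => by
        have := hL (x * s) u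
        rw [smul_smul, ← mul_assoc, ← Complex.ofReal_mul]
        exact (h.norm_le _).trans (this.le.trans h.nu)
    simpa using this
  have h1 := key 1
  have h2 := key (-1)
  simp at h1 h2
  linarith

theorem St.re_nonneg {f : M →L[ℂ] ℂ} {u : M} (h : St f u) {L : M →L[ℂ] M}
    (hL : ∀ (t : ℝ) x, ‖exp (((t : ℂ) * Complex.I) • L) x‖ = ‖x‖)
    (hs : ∀ z ∈ spectrum ℂ L, 0 ≤ z.re ∧ z.im = 0) : 0 ≤ (f (L u)).re := by
  have : Nontrivial M := ⟨u, 0, fun e => by simpa [e] using h.one⟩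
  set R := ‖L‖ with hR
  set B := algebraMap ℂ (M →L[ℂ] M) R - L with hB
  refine le_of_forall_pos_le_add fun ε hε => ?_
  obtain ⟨K, hK⟩ := pow_bound B (r := R) (r' := R + ε) (norm_nonneg _) (fun z hz => by
    have h1 : (R : ℂ) - z ∈ spectrum ℂ L := by
      rw [spectrum.mem_iff] at hz ⊢
      intro hu
      apply hz
      have : algebraMap ℂ (M →L[ℂ] M) z - B = -(algebraMap ℂ (M →L[ℂ] M) (R - z) - L) := by
        rw [hB, map_sub]; abel
      rw [this]; exact hu.neg
    have h2 := spectrum.norm_le_norm_of_mem h1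
    have h3 := hs _ h1
    have h4 := (Complex.re_le_norm _).trans h2
    have h5 : z = (z.re : ℂ) := Complex.ext rfl (by simpa using h3.2)
    simp only [Complex.sub_re, Complex.ofReal_re] at h3 h4
    rw [h5, Complex.norm_real, Real.norm_eq_abs, abs_le]
    constructor <;> linarith [norm_nonneg L]) (by linarith)
  have hd : ∀ z : ℂ, HasDerivAt (fun z : ℂ => Complex.exp (-(R + ε : ℝ) * z) * f (exp (z • B) u))
      (Complex.exp (-(R + ε : ℝ) * z) * (-(R + ε : ℝ) * 1) * f (exp (z • B) u) +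
        Complex.exp (-(R + ε : ℝ) * z) * f ((exp (z • B) * B) u)) z := fun z =>
    (((hasDerivAt_id z).const_mul _).cexp).mul (deriv_state f u B z)
  have hb : ∀ z : ℂ, ‖Complex.exp (-(R + ε : ℝ) * z) * f (exp (z • B) u)‖ ≤
      Real.exp (-(R + ε) * z.re) * (K * Real.exp (‖z‖ * (R + ε))) := by
    intro z
    rw [norm_mul, Complex.norm_exp]
    refine mul_le_mul (by simp) ((h.norm_le _).trans ?_) (norm_nonneg _) (by positivity)
    exact ((exp (z • B)).le_of_opNorm_le (norm_exp_smul_le B hK z) u).trans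
      (mul_le_of_le_one_right ((norm_nonneg _).trans (norm_exp_smul_le B hK z)) h.nu)
  have hK0 : 0 ≤ K := by simpa using (norm_nonneg _).trans (hK 0)
  have hRε : 0 ≤ R + ε := by positivity
  have := re_nonpos_of_deriv (hd 0) (by simp [h.one]) fun x hx => by
    refine PhragmenLindelof.right_half_plane_of_bounded_on_real
      (f := fun z : ℂ => Complex.exp (-(R + ε : ℝ) * z) * f (exp (z • B) u))
      (Differentiable.diffContOnCl fun z => (hd z).differentiableAt) ⟨1, by norm_num, R + ε, ?_⟩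
      ⟨K, ?_⟩ (fun y => ?_) (by simpa using hx.le)
    · refine Asymptotics.IsBigO.of_bound K ?_
      filter_upwards [mem_inf_of_right (mem_principal_self _)] with z hz
      refine (hb z).trans ?_
      have : Real.exp (-(R + ε) * z.re) ≤ 1 := Real.exp_le_one_iff.2 (by
        have : 0 < z.re := hz
        nlinarith)
      rw [Real.rpow_one, Real.norm_of_nonneg (Real.exp_pos _).le, mul_comm (R + ε)]
      exact mul_le_of_le_one_left (by positivity) this
    · simp only [eventually_map]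
      filter_upwards [eventually_ge_atTop 0] with y hy
      refine (hb y).trans (le_of_eq ?_)
      rw [Complex.norm_real, Real.norm_of_nonneg hy, Complex.ofReal_re, mul_left_comm,
        ← Real.exp_add, show -(R + ε) * y + y * (R + ε) = 0 by ring]
      simp
    · have e : ((y : ℂ) * Complex.I) • B = algebraMap ℂ (M →L[ℂ] M) (y * Complex.I * R) +
          (((-y : ℝ) : ℂ) * Complex.I) • L := by
        rw [hB, smul_sub, Algebra.algebraMap_eq_smul_one, Algebra.algebraMap_eq_smul_one,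
          smul_smul]
        simp [sub_eq_add_neg]
      rw [norm_mul, Complex.norm_exp, e, exp_add_of_commute_of_mem_ball (𝕂 := ℂ)
        (Algebra.commutes _ _) (by simp [expSeries_radius_eq_top])
        (by simp [expSeries_radius_eq_top]),
        ← algebraMap_exp_comm, ← Complex.exp_eq_exp_ℂ, ← Algebra.smul_def]
      have h1 := (h.norm_le ((Complex.exp (y * Complex.I * R) •
        exp ((((-y : ℝ) : ℂ) * Complex.I) • L)) u))
      rw [smul_apply, norm_smul, hL, Complex.norm_exp] at h1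
      simpa using h1.trans (by simpa using h.nu)
  simp [h.one, hB, Algebra.algebraMap_eq_smul_one] at this
  linarith

theorem spectrum_im_eq_zero {S : M →L[ℂ] M} (h : ∀ f u, St f u → (f (S u)).im = 0) :
    ∀ z ∈ spectrum ℂ S, z.im = 0 := by
  intro z hz
  by_contra hz0
  have low : ∀ (μ : ℂ) (u : M), |μ.im| * ‖u‖ ≤ ‖(algebraMap ℂ (M →L[ℂ] M) μ - S) u‖ := by
    intro μ u
    rcases eq_or_ne u 0 with rfl | hu
    · simp
    have hn : 0 < ‖u‖ := norm_pos_iff.2 hu
    obtain ⟨f, f1, f2⟩ := exists_dual_vector'' ℂ u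
    have h1 := h f ((‖u‖⁻¹ : ℂ) • u) ⟨f1, by simp [norm_smul, hn.ne'], by simp [f2, hn.ne']⟩
    have h2 : (f (S u)).im = 0 := by
      rw [map_smul, map_smul, smul_eq_mul, ← Complex.ofReal_inv, Complex.im_ofReal_mul] at h1
      simpa [hn.ne'] using h1
    have h3 := (Complex.abs_im_le_norm _).trans
      (f.le_of_opNorm_le f1 ((algebraMap ℂ (M →L[ℂ] M) μ - S) u))
    simpa [Algebra.algebraMap_eq_smul_one, f2, h2, abs_mul] using h3
  have hp : 0 < |z.im| := abs_pos.2 hz0
  set t : ℝ := ‖S‖ * ‖(1 : M →L[ℂ] M)‖ / |z.im| with ht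
  have ht0 : 0 ≤ t := by positivity
  have him : |(z + t * z.im * Complex.I).im| = (1 + t) * |z.im| := by
    have : (z + t * z.im * Complex.I).im = (1 + t) * z.im := by simp; ring
    rw [this, abs_mul, abs_of_nonneg (by linarith)]
  have hu : IsUnit (algebraMap ℂ (M →L[ℂ] M) (z + t * z.im * Complex.I) - S) := by
    refine spectrum.mem_resolventSet_of_norm_lt_mul (lt_of_lt_of_le ?_ (Complex.abs_im_le_norm _))
    rw [him, add_mul, ht, div_mul_cancel₀ _ hp.ne']
    linarith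
  obtain ⟨U, hU⟩ := hu
  have hR : ‖(↑U⁻¹ : M →L[ℂ] M)‖ ≤ ((1 + t) * |z.im|)⁻¹ := by
    refine ContinuousLinearMap.opNorm_le_bound _ (by positivity) fun u => ?_
    have := low (z + t * z.im * Complex.I) ((↑U⁻¹ : M →L[ℂ] M) u)
    rw [← hU, ← mul_apply_eq_comp, U.mul_inv, him] at this
    rw [inv_mul_eq_div, le_div_iff₀ (by positivity), mul_comm]
    simpa using this
  have h1 : ‖((t * z.im * Complex.I : ℂ)) • (↑U⁻¹ : M →L[ℂ] M)‖ < 1 := by
    rw [norm_smul]
    refine lt_of_le_of_lt (mul_le_mul_of_nonneg_left hR (norm_nonneg _)) ?_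
    have : ‖(t * z.im * Complex.I : ℂ)‖ = t * |z.im| := by simp [abs_of_nonneg ht0]
    rw [this, ← div_eq_mul_inv, div_lt_one (by positivity)]
    nlinarith
  apply spectrum.mem_iff.1 hz
  have : algebraMap ℂ (M →L[ℂ] M) z - S =
      U * (1 - ((t * z.im * Complex.I : ℂ)) • (↑U⁻¹ : M →L[ℂ] M)) := by
    rw [mul_sub, mul_smul_comm, U.mul_inv, mul_one, hU, map_add,
      ← Algebra.algebraMap_eq_smul_one]
    abel
  rw [this]
  exact U.isUnit.mul (isUnit_one_sub_of_norm_lt_one h1)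

end Pool.Agent.Lib.MP_05992d_an
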