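import Pool.Agent.Lib.MP_05992d_an.Defs

/-!
The triple product as a bounded multilinear map.
-/

namespace Pool.Agent.Lib.MP_05992d_an

open Filter Topology

/-- Bounded triple products. -/
abbrev TripleProduct (M : Type*) [NormedAddCommGroup M] [NormedSpace ℂ M] : Type _ :=
  M →L[ℂ] M →L⋆[ℂ] M →L[ℂ] M

/-- The axioms of a JB*-triple for a bounded triple product. -/
structure JB {M : Type*} [NormedAddCommGroup M] [NormedSpace ℂ M] (T : TripleProduct M) :
    Prop where
  symm : ∀ a b c, T a b c = T c b a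
  jordan : ∀ a b x y z, T a b (T x y z) = T (T a b x) y z - T x (T b a y) z + T x y (T a b z)
  hermitian : ∀ a (t : ℝ) x, ‖NormedSpace.exp (((t : ℂ) * Complex.I) • T a a) x‖ = ‖x‖
  spectrum_nonneg : ∀ a, ∀ z ∈ spectrum ℂ (T a a), 0 ≤ z.re ∧ z.im = 0
  norm_cube : ∀ a, ‖T a a a‖ = ‖a‖ ^ 3

/-- The axioms of a JBW*-triple for a bounded triple product. -/
structure JBW {X : Type*} [NormedAddCommGroup X] [NormedSpace ℂ X]
    (T : TripleProduct (StrongDual ℂ X)) : Prop where
  jb : JB T
  weakStar_left : ∀ b c, Continuous fun a : WeakDual ℂ X =>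
    StrongDual.toWeakDual (T (WeakDual.toStrongDual a) b c)
  weakStar_mid : ∀ a c, Continuous fun b : WeakDual ℂ X =>
    StrongDual.toWeakDual (T a (WeakDual.toStrongDual b) c)

theorem IsJBStarTriple.exists_bundled {M : Type*} [NormedAddCommGroup M] [NormedSpace ℂ M]
    {T : M → M → M → M} (h : IsJBStarTriple T) :
    ∃ S : TripleProduct M, (fun a b c => S a b c) = T ∧ JB S := by
  have h0 : T 0 0 0 = 0 := by simpa using h.smul_left 0 0 0 0
  obtain ⟨δ, hδ, h1⟩ := Metric.continuousAt_iff.1 (h.continuous.continuousAt (x := 0)) 1 one_pos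
  have bd : ∀ a b c, ‖T a b c‖ ≤ (2 / δ) ^ 3 * ‖a‖ * ‖b‖ * ‖c‖ := by
    intro a b c
    rcases eq_or_ne a 0 with rfl | ha
    · simpa using h.smul_left 0 0 b c
    rcases eq_or_ne b 0 with rfl | hb
    · simpa using h.smul_mid 0 a 0 c
    rcases eq_or_ne c 0 with rfl | hc
    · rw [h.symm]; simpa using h.smul_left 0 0 b a
    have n : ∀ x : M, x ≠ 0 → ‖((δ / 2 / ‖x‖ : ℝ) : ℂ) • x‖ < δ := fun x hx => by
      have := norm_pos_iff.2 hx
      rw [norm_smul, Complex.norm_real, Real.norm_of_nonneg (by positivity),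
        div_mul_cancel₀ _ this.ne']
      linarith
    have h2 := h1 (x := (((δ / 2 / ‖a‖ : ℝ) : ℂ) • a, ((δ / 2 / ‖b‖ : ℝ) : ℂ) • b,
      ((δ / 2 / ‖c‖ : ℝ) : ℂ) • c)) (by
        rw [dist_zero_right, Prod.norm_def, Prod.norm_def]
        exact max_lt (n a ha) (max_lt (n b hb) (n c hc)))
    have pa := norm_pos_iff.2 ha
    have pb := norm_pos_iff.2 hb
    have pc := norm_pos_iff.2 hc
    simp only [Prod.fst_zero, Prod.snd_zero, h0, dist_zero_right] at h2
    rw [h.smul_left, h.smul_mid, h.symm, h.smul_left, h.symm, norm_smul, norm_smul, norm_smul,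
      Complex.conj_ofReal, Complex.norm_real, Complex.norm_real, Complex.norm_real,
      Real.norm_of_nonneg (by positivity), Real.norm_of_nonneg (by positivity),
      Real.norm_of_nonneg (by positivity)] at h2
    have h3 := mul_le_mul_of_nonneg_left h2.le
      (show 0 ≤ (2 / δ) ^ 3 * ‖a‖ * ‖b‖ * ‖c‖ by positivity)
    refine le_trans (le_of_eq ?_) (h3.trans (le_of_eq (mul_one _)))
    field_simp
  let L : M → M → M →L[ℂ] M := fun a b => LinearMap.mkContinuous
    { toFun := T a b
      map_add' := fun c c' => by rw [h.symm, h.add_left, h.symm c, h.symm c']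
      map_smul' := fun r c => by rw [h.symm, h.smul_left, h.symm c]; rfl } _ (bd a b)
  have hL : ∀ a b c, L a b c = T a b c := fun _ _ _ => rfl
  let L₂ : M →ₗ[ℂ] M →ₛₗ[starRingEnd ℂ] M →L[ℂ] M := LinearMap.mk₂'ₛₗ (RingHom.id ℂ)
    (starRingEnd ℂ) L (fun a a' b => by ext c; exact h.add_left a a' b c)
    (fun r a b => by ext c; exact h.smul_left r a b c)
    (fun a b b' => by ext c; exact h.add_mid a b b' c)
    (fun r a b => by ext c; exact h.smul_mid r a b c)
  have := L₂.mkContinuous₂_apply (C := (2 / δ) ^ 3)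
    (fun a b => LinearMap.mkContinuous_norm_le _ (by positivity) (bd a b))
  exact ⟨L₂.mkContinuous₂ ((2 / δ) ^ 3)
    (fun a b => LinearMap.mkContinuous_norm_le _ (by positivity) (bd a b)), rfl,
    h.symm, h.jordan, fun a => h.hermitian a _ fun _ => rfl,
    fun a => h.spectrum_nonneg a _ fun _ => rfl, h.norm_cube⟩

theorem IsJBWStarTriple.exists_bundled {X : Type*} [NormedAddCommGroup X] [NormedSpace ℂ X]
    {T : StrongDual ℂ X → StrongDual ℂ X → StrongDual ℂ X → StrongDual ℂ X}
    (h : IsJBWStarTriple T) :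
    ∃ S : TripleProduct (StrongDual ℂ X), (fun a b c => S a b c) = T ∧ JBW S := by
  obtain ⟨S, rfl, hS⟩ := h.jb.exists_bundled
  exact ⟨S, rfl, hS, h.weakStar_left, h.weakStar_mid⟩

end Pool.Agent.Lib.MP_05992d_an
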