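import Pool.Agent.Lib.MP_05992d_an.Peirce

/-!
Continuous functional calculus for one element.
-/

namespace Pool.Agent.Lib.MP_05992d_an

open Filter Topology Polynomial Set

variable {M : Type*} [NormedAddCommGroup M] [NormedSpace ℂ M] {T : TripleProduct M}

theorem le_of_pow_le {a b K : ℝ} (hb : 0 < b) (h : ∀ n : ℕ, ∃ m, n ≤ m ∧ a ^ m ≤ K * b ^ m) :
    a ≤ b := by
  by_contra hc
  have h1 : 1 < a / b := (one_lt_div hb).2 (not_le.1 hc)
  obtain ⟨n, hn⟩ := eventually_atTop.1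
    ((tendsto_pow_atTop_atTop_of_one_lt h1).eventually_gt_atTop K)
  obtain ⟨m, h2, h3⟩ := h n
  have := hn m h2
  rw [div_pow, lt_div_iff₀ (by positivity)] at this
  linarith

/-- A functional calculus: `Φ f` plays the role of the function `w * f` on `K`. -/
structure Calc (T : TripleProduct M) (w : C(ℝ, ℝ)) (K : Set ℝ) (Φ : C(ℝ, ℝ) →+ M) : Prop where
  compact : IsCompact K
  smul : ∀ (r : ℝ) f, Φ (r • f) = (r : ℂ) • Φ f
  mul : ∀ f g k, T (Φ f) (Φ g) (Φ k) = Φ (f * g * k * (w * w))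
  bound : ∀ f (B : ℝ), 0 ≤ B → (∀ t ∈ K, |w t * f t| ≤ B) → ‖Φ f‖ ≤ B

namespace Calc

variable {w : C(ℝ, ℝ)} {K : Set ℝ} {Φ : C(ℝ, ℝ) →+ M} (c : Calc T w K Φ)
include c

theorem congr {f g : C(ℝ, ℝ)} (h : ∀ t ∈ K, w t * f t = w t * g t) : Φ f = Φ g := by
  rw [← sub_eq_zero, ← map_sub, ← norm_le_zero_iff]
  exact c.bound _ 0 le_rfl fun t ht => by simp [mul_sub, h t ht]

theorem mono {K' : Set ℝ} (h : K ⊆ K') (hK : IsCompact K') : Calc T w K' Φ :=
  ⟨hK, c.smul, c.mul, fun f B hB hf => c.bound f B hB fun t ht => hf t (h ht)⟩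

theorem shrink_aux (d : C(ℝ, ℝ))
    (h : ∀ ε > 0, ∀ f : C(ℝ, ℝ), (∀ t ∈ K, f t ≠ 0 → ε ≤ d t) → Φ f = 0) :
    Calc T w (K ∩ {t | d t ≤ 0}) Φ := by
  refine ⟨c.compact.inter_right (isClosed_le d.continuous continuous_const), c.smul, c.mul,
    fun f B hB hf => le_of_forall_pos_le_add fun η hη => ?_⟩
  obtain ⟨ε, hε, h1⟩ : ∃ ε > 0, ∀ t ∈ K ∩ {t | B + η ≤ |w t * f t|}, ε ≤ d t :=
    (c.compact.inter_right (isClosed_le continuous_const (by fun_prop))).exists_forall_le'
      d.continuous.continuousOn fun t ht => not_le.1 fun h2 => by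
        have := hf t ⟨ht.1, h2⟩
        have h3 : B + η ≤ |w t * f t| := ht.2
        linarith
  let χ : C(ℝ, ℝ) := ⟨fun t => max 0 (min 1 (2 - 3 * d t / ε)), by fun_prop⟩
  have h2 : Φ (f - f * χ) = 0 := h (ε / 3) (by positivity) _ fun t _ ht => not_lt.1 fun h3 => by
    have : 3 * d t / ε < 1 := (div_lt_one hε).2 (by linarith)
    have h4 : χ t = 1 := by
      change max 0 (min 1 (2 - 3 * d t / ε)) = 1
      rw [min_eq_left (by linarith), max_eq_right zero_le_one]
    simp [h4] at ht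
  rw [map_sub, sub_eq_zero] at h2
  rw [h2]
  refine c.bound _ _ (by positivity) fun t ht => ?_
  rcases le_total (B + η) |w t * f t| with h3 | h3
  · have := h1 t ⟨ht, h3⟩
    have h5 : 3 ≤ 3 * d t / ε := (le_div_iff₀ hε).2 (by linarith)
    have h4 : χ t = 0 := max_eq_left ((min_le_right _ _).trans (by linarith))
    simp only [ContinuousMap.mul_apply, h4, mul_zero, abs_zero]
    positivity
  · have h4 : |χ t| ≤ 1 := abs_le.2 ⟨le_trans (by norm_num) (le_max_left 0 _),
      max_le zero_le_one (min_le_left _ _)⟩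
    rw [ContinuousMap.mul_apply, ← mul_assoc, abs_mul]
    exact (mul_le_of_le_one_right (abs_nonneg _) h4).trans h3

theorem shrink (h : JB T) {g : C(ℝ, ℝ)} {ρ : ℝ} (hg : ‖Φ g‖ ≤ ρ) :
    Calc T w (K ∩ {t | |w t * g t| ≤ ρ}) Φ := by
  have hρ : 0 ≤ ρ := (norm_nonneg _).trans hg
  have := c.shrink_aux ⟨fun t => |w t * g t| - ρ, by fun_prop⟩ fun ε hε f hf => by
    obtain ⟨B, hB⟩ := c.compact.exists_bound_of_continuousOn (f := fun t => w t * f t) (by fun_prop)
    have pw : ∀ n : ℕ, ∃ (m : ℕ) (k : C(ℝ, ℝ)), n ≤ m ∧ ‖Φ k‖ = ‖Φ g‖ ^ m ∧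
        ∀ t, w t * k t = (w t * g t) ^ m := by
      intro n
      induction n with
      | zero => exact ⟨1, g, by simp⟩
      | succ n ih =>
        obtain ⟨m, k, h1, h2, h3⟩ := ih
        rcases Nat.eq_zero_or_pos m with rfl | hm
        · exact ⟨1, g, by omega, by simp⟩
        refine ⟨m * 3, k * k * k * (w * w), by omega, ?_, fun t => ?_⟩
        · rw [← c.mul, h.norm_cube, h2, pow_mul]
        · simp only [ContinuousMap.mul_apply, pow_mul, ← h3]; ring
    by_contra hne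
    have hp : 0 < ‖Φ f‖ := norm_pos_iff.2 hne
    have hC := one_le_cT T
    have : (ρ + ε) ^ 2 ≤ (ρ + ε / 2) ^ 2 := le_of_pow_le (K := cT T * |B| / ‖Φ f‖)
      (by positivity) fun n => by
      obtain ⟨m, k, h1, h2, h3⟩ := pw n
      refine ⟨m, h1, ?_⟩
      have hpos : ∀ t, 0 < max |w t * g t| (ρ + ε) := fun t => lt_max_of_lt_right (by positivity)
      let q : C(ℝ, ℝ) := ⟨fun t => f t / (max |w t * g t| (ρ + ε)) ^ (m * 2),
        f.continuous.div (by fun_prop) fun t => (pow_pos (hpos t) _).ne'⟩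
      have e1 : Φ f = T (Φ k) (Φ k) (Φ q) := by
        rw [c.mul]
        refine c.congr fun t ht => ?_
        rcases eq_or_ne (f t) 0 with h0 | h0
        · simp [q, h0]
        · have h4 : ρ + ε ≤ |w t * g t| := by
            have : ε ≤ |w t * g t| - ρ := hf t ht h0
            linarith
          have h5 := hpos t
          simp only [ContinuousMap.mul_apply, q, ContinuousMap.coe_mk]
          rw [max_eq_left h4] at h5 ⊢
          have h6 : |w t * g t| ^ (m * 2) = (w t * k t) ^ 2 := by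
            rw [h3, ← pow_mul, mul_comm m 2, pow_mul, pow_mul, sq_abs]
          have h7 : (w t * k t) ^ 2 ≠ 0 := h6 ▸ (pow_pos h5 _).ne'
          rw [h6]
          have h8 : w t ≠ 0 := fun h => h7 (by simp [h])
          have h9 : k t ≠ 0 := fun h => h7 (by simp [h])
          field_simp
      have e2 : ‖Φ q‖ ≤ |B| / (ρ + ε) ^ (m * 2) := c.bound _ _ (by positivity) fun t ht => by
        simp only [q, ContinuousMap.coe_mk]
        rw [← mul_div_assoc, abs_div, abs_of_pos (pow_pos (hpos t) _)]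
        exact div_le_div₀ (abs_nonneg _) ((hB t ht).trans (le_abs_self _)) (by positivity)
          (pow_le_pow_left₀ (by positivity) (le_max_right _ _) _)
      have e3 : ‖Φ k‖ ≤ (ρ + ε / 2) ^ m := h2 ▸ pow_le_pow_left₀ (norm_nonneg _) (by linarith) _
      have e4 := norm_T_le (T := T) e3 e3 e2
      rw [← e1, ← mul_div_assoc, le_div_iff₀ (by positivity)] at e4
      rw [div_mul_eq_mul_div, le_div_iff₀ hp, ← pow_mul, ← pow_mul, mul_comm 2 m, pow_mul (ρ + ε / 2)]
      nlinarith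
    nlinarith
  simpa using this

end Calc

theorem exists_calc [CompleteSpace M] (h : JB T) (S : M →L[ℂ] M) (u : M) (k : ℕ)
    {lo hi : ℝ} (hS : ∀ z ∈ spectrum ℂ S, z.im = 0 ∧ z.re ∈ Icc lo hi)
    (hu : ∀ a b c, T ((S ^ a) u) ((S ^ b) u) ((S ^ c) u) = (S ^ (a + b + c + k)) u) :
    ∃ Φ : C(ℝ, ℝ) →+ M, (∀ (r : ℝ) f, Φ (r • f) = (r : ℂ) • Φ f) ∧
      (∀ f g l, T (Φ f) (Φ g) (Φ l) = Φ (f * g * l * ContinuousMap.id ℝ ^ k)) ∧
      (∀ f (B : ℝ), 0 ≤ B → (∀ t ∈ Icc lo hi, |√(|t| ^ k) * f t| ≤ B) → ‖Φ f‖ ≤ B) ∧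
      Φ 1 = u ∧ Φ (ContinuousMap.id ℝ) = S u ∧
      ∀ A : M →L[ℂ] M, (∀ n, A ((S ^ n) u) = 0) → ∀ f, A (Φ f) = 0 := by
  let P : ℝ[X] →ₗ[ℝ] M := (ContinuousLinearMap.apply ℂ M u).toLinearMap.restrictScalars ℝ ∘ₗ
    (aeval S).toLinearMap
  have hP : ∀ p, P p = aeval S p u := fun _ => rfl
  have hm : ∀ n a, P (monomial n a) = (a : ℂ) • (S ^ n) u := fun n a => by
    rw [hP, aeval_monomial, ← Algebra.smul_def, smul_apply, Complex.coe_smul]
  have tri : ∀ p q r, T (P p) (P q) (P r) = P (p * q * r * X ^ k) := by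
    intro p q r
    induction p using Polynomial.induction_on' with
    | add p p' h1 h2 => simp only [map_add, add_apply, add_mul, h1, h2]
    | monomial a x =>
    induction q using Polynomial.induction_on' with
    | add q q' h1 h2 => simp only [map_add, add_apply, add_mul, mul_add, h1, h2]
    | monomial b y =>
    induction r using Polynomial.induction_on' with
    | add r r' h1 h2 => simp only [map_add, add_mul, mul_add, h1, h2]
    | monomial c z =>
      simp only [monomial_mul_monomial, monomial_mul_X_pow, hm, map_smulₛₗ, smul_apply,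
        RingHom.id_apply, Complex.conj_ofReal, hu]
      push_cast
      module
  let ω : C(Icc lo hi, ℝ) := ⟨fun t => √(|t.1| ^ k), by fun_prop⟩
  let e : ℝ[X] →ₗ[ℝ] C(Icc lo hi, ℝ) := (toContinuousMapOnAlgHom (Icc lo hi)).toLinearMap
  have he : ∀ p t, e p t = p.eval t.1 := fun _ _ => rfl
  have emul : ∀ p q, e (p * q) = e p * e q := fun p q => map_mul (toContinuousMapOnAlgHom _) p q
  have hd : DenseRange e := Metric.denseRange_iff.2 fun f ε hε => by
    obtain ⟨p, hp⟩ := exists_polynomial_near_continuousMap lo hi f ε hε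
    exact ⟨p, by rwa [dist_comm, dist_eq_norm]⟩
  have bd : ∀ p, ‖P p‖ ≤ ‖ω * e p‖ := by
    intro p
    rcases eq_or_ne (P p) 0 with h0 | h0
    · simp [h0]
    have : Nontrivial M := ⟨_, _, h0⟩
    have hp : 0 < ‖P p‖ := norm_pos_iff.2 h0
    refine le_of_sq_le_sq (le_of_forall_gt_imp_ge_of_dense fun r hr => ?_) (norm_nonneg _)
    obtain ⟨K, hK⟩ := pow_bound (aeval S (p * p * X ^ k)) (sq_nonneg _) (fun z hz => by
      rw [← aeval_map_algebraMap ℂ, spectrum.map_polynomial_aeval_of_nonempty _ _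
        (spectrum.nonempty S)] at hz
      obtain ⟨x, hx, rfl⟩ := hz
      obtain ⟨h1, h2⟩ := hS x hx
      have h3 : x = algebraMap ℝ ℂ x.re := Complex.ext rfl (by simpa using h1)
      have h4 := (ω * e p).norm_coe_le_norm ⟨x.re, h2⟩
      change ‖eval x _‖ ≤ _
      rw [h3, eval_map_algebraMap, aeval_algebraMap_apply, coe_aeval_eq_eval, norm_algebraMap']
      refine le_trans (le_of_eq ?_) (pow_le_pow_left₀ (norm_nonneg _) h4 2)
      simp only [ContinuousMap.mul_apply, ω, ContinuousMap.coe_mk, he, eval_mul, eval_pow, eval_X,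
        Real.norm_eq_abs, sq_abs, mul_pow, Real.sq_sqrt (show 0 ≤ |x.re| ^ k by positivity),
        abs_mul, abs_pow, abs_mul_abs_self]
      ring) hr
    have pw : ∀ n : ℕ, ∃ m, n ≤ m ∧ ‖P p‖ ^ (2 * m + 1) = ‖P ((p * p * X ^ k) ^ m * p)‖ := by
      intro n
      induction n with
      | zero => exact ⟨0, by simp⟩
      | succ n ih =>
        obtain ⟨m, h1, h2⟩ := ih
        refine ⟨3 * m + 1, by omega, ?_⟩
        rw [show 2 * (3 * m + 1) + 1 = (2 * m + 1) * 3 by ring, pow_mul, h2, ← h.norm_cube, tri]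
        congr 2
        ring
    refine le_of_pow_le (K := K) ((sq_nonneg _).trans_lt hr) fun n => ?_
    obtain ⟨m, h1, h2⟩ := pw n
    refine ⟨m, h1, le_of_mul_le_mul_right ?_ hp⟩
    rw [← pow_mul, ← pow_succ, h2, hP, map_mul, map_pow]
    exact ContinuousLinearMap.le_of_opNorm_le _ (hK m) (P p)
  have bd' : ∃ C, ∀ p, ‖P p‖ ≤ C * ‖e p‖ := ⟨‖ω‖, fun p => (bd p).trans (norm_mul_le _ _)⟩
  let Ψ := P.extendOfNorm e
  have hΨ : ∀ p, Ψ (e p) = P p := LinearMap.extendOfNorm_eq hd bd'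
  let ρ : C(ℝ, ℝ) →+ C(Icc lo hi, ℝ) :=
    { toFun := fun f => f.restrict (Icc lo hi), map_zero' := rfl, map_add' := fun _ _ => rfl }
  refine ⟨(Ψ : C(Icc lo hi, ℝ) →+ M).comp ρ, fun r f => ?_, fun f g l => ?_, fun f B hB hf => ?_,
    ?_, ?_, fun A hA f => ?_⟩
  · exact (Ψ.map_smul r (ρ f)).trans (Complex.coe_smul _ _).symm
  · have : ∀ f g l, T (Ψ f) (Ψ g) (Ψ l) = Ψ (f * g * l * e (X ^ k)) := by
      intro f g l
      refine hd.induction_on (p := fun l => T (Ψ f) (Ψ g) (Ψ l) = Ψ (f * g * l * e (X ^ k))) l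
        (isClosed_eq (by fun_prop) (by fun_prop)) fun r => ?_
      refine hd.induction_on (p := fun g => T (Ψ f) (Ψ g) (Ψ (e r)) = Ψ (f * g * e r * e (X ^ k))) g
        (isClosed_eq (((T _).continuous.comp Ψ.continuous).clm_apply continuous_const)
          (by fun_prop)) fun q => ?_
      simp only [h.symm (Ψ f)]
      refine hd.induction_on
        (p := fun f => T (Ψ (e r)) (Ψ (e q)) (Ψ f) = Ψ (f * e q * e r * e (X ^ k))) f
        (isClosed_eq (by fun_prop) (by fun_prop)) fun p => ?_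
      simp only [h.symm (P r), ← emul, hΨ, tri]
    refine (this (ρ f) (ρ g) (ρ l)).trans (congrArg Ψ ?_)
    ext t
    simp [he, ρ]
  · have : ∀ f, ‖Ψ f‖ ≤ ‖ω * f‖ := fun f =>
      hd.induction_on (p := fun f => ‖Ψ f‖ ≤ ‖ω * f‖) f (isClosed_le (by fun_prop) (by fun_prop))
        fun p => by rw [hΨ]; exact bd p
    exact (this (ρ f)).trans ((ContinuousMap.norm_le _ hB).2 fun t => hf t.1 t.2)
  · have : ρ 1 = e 1 := by ext t; simp [he, ρ]
    change Ψ (ρ 1) = u
    rw [this, hΨ, hP]; simp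
  · have : ρ (ContinuousMap.id ℝ) = e X := by ext t; simp [he, ρ]
    change Ψ (ρ _) = S u
    rw [this, hΨ, hP]; simp
  · refine hd.induction_on (p := fun f => A (Ψ f) = 0) (ρ f) (isClosed_eq (by fun_prop) (by fun_prop))
      fun p => ?_
    rw [hΨ]
    induction p using Polynomial.induction_on' with
    | add p p' h1 h2 => simp [map_add, h1, h2]
    | monomial a x => rw [hm, map_smul, hA, smul_zero]

end Pool.Agent.Lib.MP_05992d_an
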