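import Mathlib

/-!
Definitions used in the statement.
-/

namespace Pool.Agent.Lib.MP_05992d_an

open Filter Topology
open scoped ENNReal Pointwise

/-- The axioms of a JB*-triple for a triple product `T a b c = {a, b, c}` on a complex normed
space `M`: `T` is continuous, linear in `a`, conjugate linear in `b`, symmetric in `a`, `c`,
satisfies the Jordan identity, the operator `L(a, a) = {a, a, ·}` is hermitian with nonnegative
spectrum, and `‖{a, a, a}‖ = ‖a‖ ^ 3`. -/
structure IsJBStarTriple {M : Type*} [NormedAddCommGroup M] [NormedSpace ℂ M]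
    (T : M → M → M → M) : Prop where
  add_left : ∀ a a' b c, T (a + a') b c = T a b c + T a' b c
  smul_left : ∀ (r : ℂ) a b c, T (r • a) b c = r • T a b c
  add_mid : ∀ a b b' c, T a (b + b') c = T a b c + T a b' c
  smul_mid : ∀ (r : ℂ) a b c, T a (r • b) c = (starRingEnd ℂ r) • T a b c
  symm : ∀ a b c, T a b c = T c b a
  continuous : Continuous fun p : M × M × M => T p.1 p.2.1 p.2.2
  jordan : ∀ a b x y z, T a b (T x y z) = T (T a b x) y z - T x (T b a y) z + T x y (T a b z)
  hermitian : ∀ (a : M) (D : M →L[ℂ] M), (∀ x, D x = T a a x) →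
    ∀ (t : ℝ) x, ‖NormedSpace.exp (((t : ℂ) * Complex.I) • D) x‖ = ‖x‖
  spectrum_nonneg : ∀ (a : M) (D : M →L[ℂ] M), (∀ x, D x = T a a x) →
    ∀ z ∈ spectrum ℂ D, 0 ≤ z.re ∧ z.im = 0
  norm_cube : ∀ a, ‖T a a a‖ = ‖a‖ ^ 3

variable {X : Type*} [NormedAddCommGroup X] [NormedSpace ℂ X]

/-- The dual `M` of `X` with the triple product `T` is a JBW*-triple with predual `X`: a
JB*-triple whose triple product is separately weak* continuous (continuity in the third
variable follows from the symmetry). -/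
structure IsJBWStarTriple
    (T : StrongDual ℂ X → StrongDual ℂ X → StrongDual ℂ X → StrongDual ℂ X) : Prop where
  jb : IsJBStarTriple T
  weakStar_left : ∀ b c, Continuous fun a : WeakDual ℂ X =>
    StrongDual.toWeakDual (T (WeakDual.toStrongDual a) b c)
  weakStar_mid : ∀ a c, Continuous fun b : WeakDual ℂ X =>
    StrongDual.toWeakDual (T a (WeakDual.toStrongDual b) c)

/-- A decreasing sequence of tripotents: each `e n` is a tripotent, and `e n - e (n + 1)` is a
tripotent orthogonal to `e (n + 1)`. -/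
def IsDecreasingTripotents {M : Type*} [NormedAddCommGroup M] (T : M → M → M → M) (e : ℕ → M) :
    Prop :=
  ∀ n, T (e n) (e n) (e n) = e n ∧
    T (e n - e (n + 1)) (e n - e (n + 1)) (e n - e (n + 1)) = e n - e (n + 1) ∧
    T (e n - e (n + 1)) (e n - e (n + 1)) (e (n + 1)) = 0

/-- The De Blasi measure of weak non-compactness. -/
noncomputable def deBlasi (A : Set X) : ℝ≥0∞ :=
  ⨅ (ε : ℝ) (_ : 0 < ε) (K : Set X) (_ : IsCompact (toWeakSpace ℂ X '' K))
    (_ : A ⊆ K + Metric.closedBall (0 : X) ε), ENNReal.ofReal ε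

/-- The supremum, over weak* null decreasing sequences of tripotents `e`, of
`limsup_n sup_{φ ∈ A} |φ(e n)|`. -/
noncomputable def gamma (T : StrongDual ℂ X → StrongDual ℂ X → StrongDual ℂ X → StrongDual ℂ X)
    (A : Set X) : ℝ≥0∞ :=
  ⨆ (e : ℕ → StrongDual ℂ X) (_ : IsDecreasingTripotents T e)
    (_ : ∀ φ : X, Tendsto (fun n => e n φ) atTop (𝓝 0)),
    limsup (fun n => ⨆ φ ∈ A, ‖e n φ‖ₑ) atTop

end Pool.Agent.Lib.MP_05992d_an
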