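import Pool.Agent.Lib.MP_05992d_an.Step

/-!
The two inequalities.
-/

namespace Pool.Agent.Lib.MP_05992d_an

open Filter Topology Set NormedSpace
open scoped Pointwise

variable {X : Type*} [NormedAddCommGroup X] [NormedSpace ℂ X]
  {T : TripleProduct (StrongDual ℂ X)}

namespace JBW

variable (h : JBW T)
include h

theorem lim_dec {t : ℕ → StrongDual ℂ X} (l : ∀ n, Le T (t (n + 1)) (t n)) :
    ∃ z, WL t z ∧ ∀ n, Le T z (t n) := by
  have tri : ∀ n, T (t n) (t n) (t n) = t n := fun n => (l n).tri_right h.jb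
  have le : ∀ a b, a ≤ b → Le T (t b) (t a) := fun a b hab => by
    induction hab with
    | refl => exact Le.refl (tri a)
    | step _ ih => exact (l _).trans ih h.jb
  obtain ⟨z, hz⟩ := exists_WL t fun n => h.jb.norm_le_one (tri n)
  have LL : ∀ a b, a ≤ b → T (t a) (t b) = T (t b) (t b) ∧ T (t b) (t a) = T (t b) (t b) := by
    intro a b hab
    obtain ⟨o1, o2⟩ := h.jb.orth_e (le a b hab).tri_sub (le a b hab).orth
    rw [map_sub, sub_eq_zero] at o1
    rw [map_sub, sub_apply, sub_eq_zero] at o2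
    exact ⟨o2, o1⟩
  have h1 : ∀ a b, a ≤ b → T (t a) (t b) z = z := fun a b hab =>
    (h.right hz _ _).unique (hz.congr ((eventually_ge_atTop b).mono fun c hc => by
      rw [(LL a b hab).1, (le b c hc).two h.jb (tri c)]))
  have h2 : ∀ a, T (t a) z z = z := fun a =>
    (h.mid hz _ _).eq_of_eventually ((eventually_ge_atTop a).mono fun b hb => h1 a b hb)
  have h3 : T z z z = z := (h.left hz _ _).eq_of_eventually (Eventually.of_forall h2)
  have h4 : ∀ a, T z (t a) z = z := fun a =>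
    (h.left hz _ _).eq_of_eventually ((eventually_ge_atTop a).mono fun b hb => by
      rw [(LL a b hb).2]; exact h1 b b le_rfl)
  have h5 : ∀ a, T (t a) z (t a) = z := fun a =>
    (h.mid hz _ _).unique (hz.congr ((eventually_ge_atTop a).mono fun b hb => by
      rw [(LL a b hb).1, h.jb.symm, (LL a b hb).1, tri]))
  refine ⟨z, hz, fun a => ⟨h3, ?_, ?_⟩⟩
  · simp only [map_sub, sub_apply, tri, h1 a a le_rfl, h2, h3, h4, h5, h.jb.symm z (t a) (t a),
      h.jb.symm z z (t a)]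
    abel
  · simp only [map_sub, sub_apply, h1 a a le_rfl, h2, h3, h4]
    abel

theorem exists_seq [CompleteSpace X] {A : Set X} {R η ε : ℝ} (hA : ∀ φ ∈ A, ‖φ‖ ≤ R) (hR : 0 ≤ R)
    (hη : 0 ≤ η) (hω : ENNReal.ofReal η < deBlasi A) (hε : 0 < ε) :
    ∃ (d : ℕ → StrongDual ℂ X) (φ : ℕ → X), (∀ S, OrthOn T S d) ∧ (∀ n, φ n ∈ A) ∧
      (∀ n, η - 2 * ε ≤ ‖d n (φ n)‖) ∧ ∀ j n, j < n → ‖d n (φ j)‖ ≤ ε * (1 / 2) ^ n := by
  have key : ∀ m (p : (ℕ → StrongDual ℂ X) × (ℕ → X)), OrthOn T (Finset.range m) p.1 →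
      ∃ q : (ℕ → StrongDual ℂ X) × (ℕ → X), OrthOn T (Finset.range (m + 1)) q.1 ∧
        (∀ j < m, q.2 j = p.2 j ∧ Le T (q.1 j) (p.1 j) ∧
          ‖(p.1 j - q.1 j) (p.2 j)‖ ≤ ε * (1 / 2) ^ m) ∧ q.2 m ∈ A ∧ η ≤ ‖q.1 m (q.2 m)‖ ∧
        ∀ w, Le T w (q.1 m) → ∀ j < m, ‖w (p.2 j)‖ ≤ ε * (1 / 2) ^ m := by
    intro m p o
    obtain ⟨v, u, ψ, hψ, h1, h2, h3, h4⟩ := h.step hA hR hη hω (ε := ε * (1 / 2) ^ m)
      (by positivity) _ p.1 p.2 o
    simp only [Finset.mem_range] at h1 h4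
    refine ⟨(Function.update v m u, Function.update p.2 m ψ), ⟨fun i hi => ?_,
      fun i hi j hj hij => ?_⟩, fun j hj => ?_, by simpa, by simpa, by simpa using h4⟩
    · rcases (Nat.lt_succ_iff.1 (Finset.mem_range.1 hi)).eq_or_lt with rfl | hi
      · simpa
      · simpa [hi.ne] using (h1 i hi).1.tri
    · rcases (Nat.lt_succ_iff.1 (Finset.mem_range.1 hi)).eq_or_lt with rfl | hi <;>
        rcases (Nat.lt_succ_iff.1 (Finset.mem_range.1 hj)).eq_or_lt with rfl | hj
      · exact absurd rfl hij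
      · simpa [hj.ne] using h.jb.orth_symm (h1 j hj).1.tri (h1 j hj).2.2
      · simpa [hi.ne] using (h1 i hi).2.2
      · simpa [hi.ne, hj.ne] using (h1 i hi).1.orth_of (h1 j hj).1 h.jb
          (o.2 i (Finset.mem_range.2 hi) j (Finset.mem_range.2 hj) hij)
    · simp only [Function.update_of_ne hj.ne, true_and]
      exact ⟨(h1 j hj).1, (h1 j hj).2.1⟩
  choose nx k1 k2 using key
  let P : (m : ℕ) → {p : (ℕ → StrongDual ℂ X) × (ℕ → X) // OrthOn T (Finset.range m) p.1} :=
    fun m => Nat.rec ⟨0, by simp [OrthOn]⟩ (fun m p => ⟨nx m p.1 p.2, k1 m p.1 p.2⟩) m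
  obtain ⟨v, φ, o, k⟩ : ∃ (v : ℕ → ℕ → StrongDual ℂ X) (φ : ℕ → ℕ → X),
      (∀ m, OrthOn T (Finset.range m) (v m)) ∧ ∀ m, (∀ j < m, φ (m + 1) j = φ m j ∧
        Le T (v (m + 1) j) (v m j) ∧ ‖(v m j - v (m + 1) j) (φ m j)‖ ≤ ε * (1 / 2) ^ m) ∧
        φ (m + 1) m ∈ A ∧ η ≤ ‖v (m + 1) m (φ (m + 1) m)‖ ∧
        ∀ w, Le T w (v (m + 1) m) → ∀ j < m, ‖w (φ m j)‖ ≤ ε * (1 / 2) ^ m :=
    ⟨fun m => (P m).1.1, fun m => (P m).1.2, fun m => (P m).2, fun m => k2 m (P m).1 (P m).2⟩
  have hφ : ∀ j m, j + 1 ≤ m → φ m j = φ (j + 1) j := fun j m hm => by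
    induction hm with
    | refl => rfl
    | step hm ih => rw [((k _).1 j hm).1, ih]
  choose d l1 l2 using fun j => h.lim_dec (t := fun n => v (j + 1 + n) j)
    fun n => ((k (j + 1 + n)).1 j (by omega)).2.1
  refine ⟨d, fun j => φ (j + 1) j, fun S => ⟨fun i _ => (l2 i 0).tri, fun i _ j _ hij => ?_⟩,
    fun n => (k n).2.1, fun n => ?_, fun j n hj => ?_⟩
  · have a1 := l2 i j
    have a2 := l2 j i
    rw [show j + 1 + i = i + 1 + j by ring] at a2
    exact a1.orth_of a2 h.jb ((o _).2 i (by simp; omega) j (by simp) hij)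
  · have a1 : ∀ m, ‖(v (n + 1) n - v (n + 1 + m) n) (φ (n + 1) n)‖ ≤
        ε * ∑ i ∈ Finset.range m, (1 / 2) ^ i := by
      intro m
      induction m with
      | zero => simp
      | succ m ih =>
        have b1 := ((k (n + 1 + m)).1 n (by omega)).2.2
        rw [hφ n _ (by omega)] at b1
        have b2 : ((1 : ℝ) / 2) ^ (n + 1 + m) ≤ (1 / 2) ^ m :=
          pow_le_pow_of_le_one (by norm_num) (by norm_num) (by omega)
        have b3 := norm_add_le ((v (n + 1) n - v (n + 1 + m) n) (φ (n + 1) n))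
          ((v (n + 1 + m) n - v (n + 1 + m + 1) n) (φ (n + 1) n))
        rw [← add_apply, sub_add_sub_cancel] at b3
        rw [Finset.sum_range_succ, ← add_assoc]
        nlinarith
    have a2 := ((WL.const (v (n + 1) n)).sub (l1 n)).apply_le (B := ε * 2)
      (Eventually.of_forall fun m => (a1 m).trans
        (mul_le_mul_of_nonneg_left (sum_geometric_two_le m) hε.le))
    have a3 := norm_add_le ((v (n + 1) n - d n) (φ (n + 1) n)) (d n (φ (n + 1) n))
    rw [← add_apply, sub_add_cancel] at a3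
    linarith [(k n).2.2.1]
  · simpa only [hφ j n hj] using (k n).2.2.2 (d n) (l2 n 0) j hj

theorem exists_tail {d : ℕ → StrongDual ℂ X} (o : ∀ S, OrthOn T S d) :
    ∃ e : ℕ → StrongDual ℂ X, IsDecreasingTripotents (fun a b c => T a b c) e ∧
      (∀ φ : X, Tendsto (fun n => e n φ) atTop (𝓝 0)) ∧
      (∀ n, e n = d n + e (n + 1)) ∧ ∀ n, WL (fun N => ∑ k ∈ Finset.Ico n N, d k) (e n) := by
  choose e l using fun n => exists_WL (fun N => ∑ k ∈ Finset.Ico n N, d k)
    fun N => h.jb.norm_le_one ((o _).tri_sum h.jb)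
  have e1 : ∀ n, e n = d n + e (n + 1) := fun n => (l n).unique
    (((WL.const _).add (l (n + 1))).congr ((eventually_gt_atTop n).mono fun N hN =>
      (Finset.sum_eq_sum_Ico_succ_bot hN d).symm))
  refine ⟨e, fun n => ⟨?_, ?_, ?_⟩, fun φ => ?_, e1, l⟩
  · refine (h.left (l n) _ _).unique ((l n).congr (Eventually.of_forall fun a => Eq.symm ?_))
    refine (h.mid (l n) _ _).eq_of_eventually ((eventually_ge_atTop a).mono fun b hb => ?_)
    refine (h.right (l n) _ _).eq_of_eventually ((eventually_ge_atTop a).mono fun c hc => ?_)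
    rw [(o _).L_sum h.jb (Finset.Ico_subset_Ico_right hb), sum_apply]
    exact Finset.sum_congr rfl fun i hi => (o _).apply_sum (Finset.Ico_subset_Ico_right hc hi)
  · rw [e1 n, add_sub_cancel_right]
    exact (o {n}).1 n (by simp)
  · rw [show e n - e (n + 1) = d n by rw [e1 n, add_sub_cancel_right]]
    refine (h.right (l (n + 1)) _ _).eq_of_eventually (Eventually.of_forall fun N => ?_)
    rw [map_sum]
    refine Finset.sum_eq_zero fun k hk => (o {n, k}).2 n (by simp) k (by simp) ?_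
    exact (Finset.mem_Ico.1 hk).1 |> Nat.ne_of_lt
  · refine squeeze_zero_norm (fun n => ?_) (tendsto_sum_nat_add fun k => ‖d k φ‖)
    refine (l n).apply_le (Eventually.of_forall fun N => ?_)
    rw [sum_apply, Finset.sum_Ico_eq_sum_range]
    refine (norm_sum_le _ _).trans ?_
    simp only [add_comm n]
    exact ((summable_nat_add_iff n).2 (OrthOn.summable o h.jb φ)).sum_le_tsum _
      fun _ _ => norm_nonneg _

theorem deBlasi_le_gamma [CompleteSpace X] {A : Set X} (hA : Bornology.IsBounded A) :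
    deBlasi A ≤ gamma (fun a b c => T a b c) A := by
  obtain ⟨R, hR, hA⟩ := hA.exists_pos_norm_le
  refine le_of_forall_lt_imp_le_of_dense fun a ha => ?_
  obtain ⟨η, h0, h1, h2⟩ := ENNReal.lt_iff_exists_real_btwn.1 ha
  obtain ⟨η', -, h3, h4⟩ := ENNReal.lt_iff_exists_real_btwn.1 h2
  have h3 : η < η' := (ENNReal.ofReal_lt_ofReal_iff_of_nonneg h0).1 h3
  obtain ⟨d, φ, o, a1, a2, a3⟩ := h.exists_seq hA hR.le (by linarith) h4
    (ε := (η' - η) / 4) (by linarith)
  obtain ⟨e, e1, e2, e3, l⟩ := h.exists_tail o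
  refine h1.le.trans (le_iSup_of_le e (le_iSup₂_of_le e1 e2 (le_limsup_of_frequently_le'
    (Eventually.of_forall fun n => le_iSup₂_of_le (φ n) (a1 n) ?_).frequently)))
  rw [← ofReal_norm]
  refine ENNReal.ofReal_le_ofReal ?_
  have b1 : ‖e (n + 1) (φ n)‖ ≤ (η' - η) / 4 * 2 := by
    refine (l (n + 1)).apply_le (Eventually.of_forall fun N => ?_)
    rw [sum_apply]
    refine (norm_sum_le _ _).trans ((Finset.sum_le_sum fun k hk =>
      a3 n k (Finset.mem_Ico.1 hk).1).trans ?_)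
    rw [← Finset.mul_sum]
    refine mul_le_mul_of_nonneg_left (le_trans (Finset.sum_le_sum_of_subset_of_nonneg
      (fun k hk => Finset.mem_range.2 (Finset.mem_Ico.1 hk).2) fun _ _ _ => by positivity)
      (sum_geometric_two_le N)) (by linarith)
  have b2 := norm_sub_le (e n (φ n)) (e (n + 1) (φ n))
  rw [← sub_apply, show e n - e (n + 1) = d n by rw [e3 n, add_sub_cancel_right]] at b2
  linarith [a2 n]

theorem uniform {e : ℕ → StrongDual ℂ X} (he : IsDecreasingTripotents (fun a b c => T a b c) e)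
    (h0 : ∀ φ : X, Tendsto (fun n => e n φ) atTop (𝓝 0)) {K : Set X}
    (hK : IsCompact (toWeakSpace ℂ X '' K)) {κ : ℝ} (hκ : 0 < κ) :
    ∀ᶠ n in atTop, ∀ k ∈ K, ‖e n k‖ ≤ κ := by
  set d : ℕ → StrongDual ℂ X := fun n => e n - e (n + 1) with hd
  have le : ∀ a b, a ≤ b → Le T (e b) (e a) := fun a b hab => by
    induction hab with
    | refl => exact Le.refl (he a).1
    | step _ ih => exact (Le.mk (he _).1 (he _).2.1 (he _).2.2).trans ih h.jb
  have o1 : ∀ i j, i < j → T (d i) (d i) (d j) = 0 := fun i j hij => by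
    have a : ∀ b, i + 1 ≤ b → T (d i) (d i) (e b) = 0 := fun b hb =>
      (Le.refl (he i).2.1).orth_of (le _ _ hb) h.jb (he i).2.2
    rw [show d j = e j - e (j + 1) from rfl, map_sub, a j hij, a (j + 1) (by omega), sub_zero]
  have o : ∀ S, OrthOn T S d := fun S => ⟨fun i _ => (he i).2.1, fun i _ j _ hij => by
    rcases hij.lt_or_gt with hij | hij
    · exact o1 i j hij
    · exact h.jb.orth_symm (he j).2.1 (o1 j i hij)⟩
  let F : X → (ℕ → Bool) → ℂ := fun ψ θ => ∑' i, if θ i then d i ψ else 0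
  have bd : ∀ (ψ : X) (i : ℕ) (θ : ℕ → Bool), ‖(if θ i then d i ψ else 0)‖ ≤ ‖d i ψ‖ := by
    intro ψ i θ
    split_ifs <;> simp
  have sm : ∀ (ψ : X) (θ : ℕ → Bool), Summable fun i => if θ i then d i ψ else 0 := fun ψ θ =>
    (OrthOn.summable o h.jb ψ).of_norm_bounded fun i => bd ψ i θ
  have Fc : ∀ ψ, Continuous (F ψ) := fun ψ =>
    continuous_tsum (fun i => (continuous_of_discreteTopology
      (f := fun b : Bool => if b then d i ψ else 0)).comp (continuous_apply i))
      (OrthOn.summable o h.jb ψ) (bd ψ)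
  have Fx : ∀ θ, ∃ x : StrongDual ℂ X, ∀ ψ, F ψ θ = x ψ := by
    intro θ
    obtain ⟨x, hx⟩ := exists_WL (fun N => ∑ i ∈ (Finset.range N).filter fun i => θ i, d i)
      fun N => h.jb.norm_le_one ((o _).tri_sum h.jb)
    refine ⟨x, fun ψ => tendsto_nhds_unique
      ((sm ψ θ).hasSum.tendsto_sum_nat.mono_left Nat.hyperfilter_le_atTop) ?_⟩
    exact (hx ψ).congr fun N => by rw [sum_apply, Finset.sum_filter]
  have Fe : ∀ ψ (θ : ℕ → Bool) n, F ψ (fun i => if i < n then θ i else true) -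
      F ψ (fun i => if i < n then θ i else false) = e n ψ := by
    intro ψ θ n
    refine tendsto_nhds_unique ((sm ψ _).hasSum.sub (sm ψ _).hasSum).tendsto_sum_nat ?_
    have := (tendsto_const_nhds (x := e n ψ)).sub (h0 ψ)
    rw [sub_zero] at this
    refine this.congr' ((eventually_ge_atTop n).mono fun N hN => ?_)
    beta_reduce
    induction hN with
    | refl =>
      rw [sub_self, Finset.sum_eq_zero fun i hi => ?_]
      simp [Finset.mem_range.1 hi]
    | step hN ih =>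
      rw [Finset.sum_range_succ, ← ih]
      simp [hd, Nat.not_lt.2 hN]
  have ec : ∀ x : StrongDual ℂ X, Continuous fun k : WeakSpace ℂ X => x k := fun x =>
    WeakBilin.eval_continuous (topDualPairing ℂ X).flip x
  by_contra hc
  rw [not_eventually] at hc
  obtain ⟨n, n1, n2⟩ := extraction_of_frequently_atTop hc
  push Not at n2
  choose k k1 k2 using n2
  obtain ⟨_, ⟨_, ⟨φ, -, rfl⟩, rfl⟩, s, s1, s2⟩ :=
    (hK.image (f := fun (k : WeakSpace ℂ X) i => d i k)
      (continuous_pi fun i => ec (d i))).tendsto_subseq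
      (x := fun j i => d i (k j)) fun j => ⟨_, ⟨k j, k1 j, rfl⟩, rfl⟩
  have cv : ∀ θ, Tendsto (fun j => F (k (s j) - φ) θ) atTop (𝓝 0) := by
    intro θ
    obtain ⟨x, hx⟩ := Fx θ
    refine (tendsto_iff_ultrafilter _ _ _).2 fun g hg => ?_
    obtain ⟨_, ⟨k', -, rfl⟩, hk'⟩ := hK.ultrafilter_le_nhds'
      (g.map fun j => toWeakSpace ℂ X (k (s j)))
      (Ultrafilter.mem_map.2 (univ_mem' fun j => ⟨_, k1 _, rfl⟩))
    have a1 : ∀ y : StrongDual ℂ X, Tendsto (fun j => y (k (s j))) g (𝓝 (y k')) := fun y =>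
      ((ec y).tendsto _).comp hk'
    have a2 : ∀ i, d i k' = d i φ := fun i =>
      tendsto_nhds_unique (a1 (d i)) ((tendsto_pi_nhds.1 s2 i).mono_left hg)
    have a3 : x k' = x φ := by simp only [← hx, F, a2]
    simpa only [hx, map_sub, a3, sub_self] using (a1 x).sub_const (x φ)
  obtain ⟨N, θ, hθ⟩ := nonempty_interior_of_iUnion_of_closed
    (f := fun N => {θ | ∀ j, N ≤ j → ‖F (k (s j) - φ) θ‖ ≤ κ / 4})
    (fun N => by
      simp only [ofPred_forall]
      exact isClosed_iInter fun j => isClosed_iInter fun _ =>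
        isClosed_le (Fc _).norm continuous_const)
    (eq_univ_of_forall fun θ => by
      obtain ⟨N, hN⟩ := eventually_atTop.1 ((cv θ).norm.eventually
        (ge_mem_nhds (show ‖(0 : ℂ)‖ < κ / 4 by simpa using hκ)))
      exact mem_iUnion.2 ⟨N, hN⟩)
  have ap : ∀ b : Bool, ∀ᶠ m in atTop, ∀ j, N ≤ j →
      ‖F (k (s j) - φ) fun i => if i < m then θ i else b‖ ≤ κ / 4 := fun b =>
    (tendsto_pi_nhds.2 fun i => tendsto_const_nhds.congr'
      ((eventually_gt_atTop i).mono fun m hm => by simp [hm]) :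
      Tendsto (fun m i => if i < m then θ i else b) atTop (𝓝 θ)).eventually
      (mem_interior_iff_mem_nhds.1 hθ)
  obtain ⟨j, ⟨⟨j1, j2⟩, j3⟩, j4⟩ := (((n1.comp s1).tendsto_atTop.eventually
    (((ap true).and (ap false)).and ((h0 φ).norm.eventually
      (ge_mem_nhds (show ‖(0 : ℂ)‖ < κ / 2 by simpa using hκ))))).and
    (eventually_ge_atTop N)).exists
  have a1 := norm_sub_le (F (k (s j) - φ) fun i => if i < n (s j) then θ i else true)
    (F (k (s j) - φ) fun i => if i < n (s j) then θ i else false)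
  have a2 := norm_add_le (e (n (s j)) (k (s j) - φ)) (e (n (s j)) φ)
  rw [← map_add, sub_add_cancel] at a2
  rw [Fe] at a1
  have a3 := j1 j j4
  have a4 := j2 j j4
  simp only [Function.comp_apply] at a3 a4 j3
  linarith [k2 (s j)]

theorem gamma_le_deBlasi (A : Set X) : gamma (fun a b c => T a b c) A ≤ deBlasi A := by
  refine le_iInf₂ fun ε hε => le_iInf₂ fun K hK => le_iInf fun hA => iSup_le fun e =>
    iSup₂_le fun he h0 => ENNReal.le_of_forall_pos_le_add fun κ hκ _ =>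
      limsup_le_of_le (by isBoundedDefault) ?_
  filter_upwards [h.uniform he h0 hK (κ := κ) hκ] with n hn
  refine iSup₂_le fun φ hφ => ?_
  obtain ⟨k, hk, b, hb, rfl⟩ := hA hφ
  have h1 := (e n).le_of_opNorm_le (h.jb.norm_le_one (he n).1) b
  have h2 := norm_add_le (e n k) (e n b)
  rw [← ofReal_norm, ← ENNReal.ofReal_coe_nnreal, ← ENNReal.ofReal_add hε.le κ.coe_nonneg,
    map_add]
  refine ENNReal.ofReal_le_ofReal ?_
  have := mem_closedBall_zero_iff.1 hb
  linarith [hn k hk]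

end JBW

end Pool.Agent.Lib.MP_05992d_an
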