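import Pool.Agent.Lib.MP_05992d_an.Spec

/-!
Weakly compact sets given by positive normal forms.
-/

namespace Pool.Agent.Lib.MP_05992d_an

open Filter Topology Set NormedSpace ComplexConjugate
open scoped Pointwise

theorem norm_le_of_re {M : Type*} [NormedAddCommGroup M] [NormedSpace ℂ M] (D : M →L[ℂ] ℂ)
    {ε : ℝ} (hε : 0 ≤ ε) (h : ∀ z, ‖z‖ = 1 → (D z).re ≤ ε) : ‖D‖ ≤ ε :=
  ContinuousLinearMap.opNorm_le_of_unit_norm hε fun z hz => by
    obtain ⟨c, c1, c2⟩ := Complex.exists_norm_eq_mul_self (D z)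
    have := h (c • z) (by simp [norm_smul, c1, hz])
    rwa [map_smul, smul_eq_mul, ← c2, Complex.ofReal_re] at this

theorem mem_range_of_approx {X Y : Type*} [NormedAddCommGroup X] [CompleteSpace X]
    [NormedAddCommGroup Y] (J : X → Y) (hJ : ∀ a b, ‖J a - J b‖ = ‖a - b‖) {y : Y}
    (h : ∀ ε > 0, ∃ a, ‖y - J a‖ < ε) : y ∈ range J := by
  have hi : Isometry J := Isometry.of_dist_eq fun a b => by rw [dist_eq_norm, dist_eq_norm, hJ]
  rw [← hi.isClosedEmbedding.isClosed_range.closure_eq, Metric.mem_closure_iff]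
  intro ε hε
  obtain ⟨a, ha⟩ := h ε hε
  exact ⟨_, ⟨a, rfl⟩, by rwa [dist_eq_norm]⟩

variable {X : Type*} [NormedAddCommGroup X] [NormedSpace ℂ X] [CompleteSpace X]
  {B : Form (StrongDual ℂ X)}

theorem mem_range_of_le (hB : PSD B) (hn : ∀ y, ∃ ξ : X, ∀ x, B x y = x ξ)
    (Ψ : StrongDual ℂ X →L[ℂ] ℂ) {N : ℝ} (h : ∀ x, ‖Ψ x‖ ≤ N * √(B x x).re) :
    Ψ ∈ range (inclusionInDoubleDual ℂ X) := by
  refine mem_range_of_approx _ (fun a b => (congrArg norm (map_sub (inclusionInDoubleDual ℂ X) a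
    b).symm).trans ((inclusionInDoubleDualLi (E := X) ℂ).norm_map _)) fun ε hε => ?_
  let g : StrongDual ℂ X → ℝ := fun y => (B y y).re / 2 - (Ψ y).re
  have hg : BddBelow (range g) := ⟨-(N ^ 2 / 2), by
    rintro _ ⟨y, rfl⟩
    have h1 := (Complex.re_le_norm _).trans (h y)
    have h2 := Real.sq_sqrt (hB y).1
    simp only [g]
    nlinarith [sq_nonneg (N - √(B y y).re)]⟩
  set t := ε / (2 * (‖B‖ + 1)) with ht
  have t0 : 0 < t := by positivity
  obtain ⟨y, hy⟩ := exists_lt_of_ciInf_lt (lt_add_of_pos_right (⨅ y, g y)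
    (show 0 < t * (ε / 4) by positivity))
  obtain ⟨ξ, hξ⟩ := hn y
  refine ⟨ξ, ?_⟩
  refine lt_of_le_of_lt (norm_le_of_re _ (half_pos hε).le fun z hz => ?_) (half_lt_self hε)
  have h1 := (hy.le.trans (add_le_add_left (ciInf_le hg (y + (t : ℂ) • z)) _))
  have h2 : (B y z).re = (B z y).re := by rw [← hB.conj_symm, Complex.conj_re]
  have h3 := B.re_le z
  simp only [g, map_add, map_smulₛₗ, add_apply, smul_apply, RingHom.id_apply, Complex.conj_ofReal,
    smul_eq_mul, Complex.add_re, mul_add, Complex.re_ofReal_mul, h2] at h1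
  rw [sub_apply, dual_def, ← hξ, Complex.sub_re]
  rw [hz] at h3
  have h4 : t * (‖B‖ + 1) = ε / 2 := by rw [ht]; field_simp
  refine le_of_mul_le_mul_left ?_ t0
  have h5 := mul_le_mul_of_nonneg_left h3 (mul_pos t0 t0).le
  nlinarith [mul_pos t0 t0]

theorem compact_of_form (hB : PSD B) (hn : ∀ y, ∃ ξ : X, ∀ x, B x y = x ξ) (N : ℝ) :
    IsCompact (toWeakSpace ℂ X '' {ξ | ∀ x : StrongDual ℂ X, ‖x ξ‖ ≤ N * √(B x x).re}) := by
  have h1 : IsCompact {Ψ : WeakDual ℂ (StrongDual ℂ X) | ∀ x, ‖Ψ x‖ ≤ N * √(B x x).re} := by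
    refine (WeakDual.isCompact_closedBall 0 (|N| * √‖B‖)).of_isClosed_subset ?_ fun Ψ h => ?_
    · simp only [ofPred_forall]
      exact isClosed_iInter fun x => isClosed_le (WeakDual.eval_continuous x).norm continuous_const
    · rw [mem_preimage, mem_closedBall_zero_iff]
      refine ContinuousLinearMap.opNorm_le_bound _ (by positivity) fun x => (h x).trans ?_
      have := Real.sqrt_le_sqrt (B.re_le x)
      rw [Real.sqrt_mul' _ (sq_nonneg _), Real.sqrt_sq (norm_nonneg _)] at this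
      rw [mul_assoc]
      exact mul_le_mul (le_abs_self _) this (Real.sqrt_nonneg _) (abs_nonneg _)
  convert (isEmbedding_inclusionInDoubleDualWeak ℂ X).isCompact_preimage' h1 fun Ψ h => by
    obtain ⟨ξ, hξ⟩ := mem_range_of_le hB hn (WeakDual.toStrongDual Ψ) h
    exact ⟨ξ, hξ⟩
  ext ξ
  exact ⟨fun ⟨_, h, e⟩ => e ▸ h, fun h => ⟨ξ, h, rfl⟩⟩

theorem criterion (hB : PSD B) (hn : ∀ y, ∃ ξ : X, ∀ x, B x y = x ξ) {A : Set X} {R η δ : ℝ}
    (hA : ∀ φ ∈ A, ‖φ‖ ≤ R) (hη : 0 ≤ η) (h : ENNReal.ofReal η < deBlasi A) (hδ : 0 < δ) :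
    ∃ φ ∈ A, ∃ x : StrongDual ℂ X, ‖x‖ ≤ 1 ∧ η < ‖x φ‖ ∧ (B x x).re ≤ δ := by
  by_contra hc
  push Not at hc
  obtain ⟨η', -, h1, h2⟩ := ENNReal.lt_iff_exists_real_btwn.1 h
  have h1 : η < η' := (ENNReal.ofReal_lt_ofReal_iff_of_nonneg hη).1 h1
  have hs : 0 < √δ := Real.sqrt_pos.2 hδ
  set N := |R| / √δ with hN
  have N0 : 0 ≤ N := by positivity
  refine h2.not_ge (iInf₂_le_of_le η' (by linarith) (iInf₂_le_of_le _ (compact_of_form hB hn N)
    (iInf_le_of_le (fun φ hφ => ?_) le_rfl)))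
  have bd : ∀ x : StrongDual ℂ X, ‖x φ‖ ≤ η * ‖x‖ + N * √(B x x).re := by
    intro x
    rcases eq_or_ne x 0 with rfl | hx
    · simp
    have hp : 0 < ‖x‖ := norm_pos_iff.2 hx
    rcases le_or_gt ‖x φ‖ (η * ‖x‖) with h3 | h3
    · exact h3.trans (le_add_of_nonneg_right (by positivity))
    have h4 := hc φ hφ (((‖x‖⁻¹ : ℝ) : ℂ) • x) (by simp [norm_smul, hp.ne'])
      (by simpa [norm_smul, inv_mul_eq_div, lt_div_iff₀ hp] using h3)
    simp only [map_smulₛₗ, smul_apply, RingHom.id_apply, Complex.conj_ofReal, smul_eq_mul,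
      Complex.re_ofReal_mul, inv_mul_eq_div, lt_div_iff₀ hp] at h4
    have h5 : √δ * ‖x‖ ≤ √(B x x).re := Real.le_sqrt_of_sq_le (by
      rw [mul_pow, Real.sq_sqrt hδ.le]; nlinarith)
    have h6 := mul_le_mul_of_nonneg_left h5 N0
    rw [hN, ← mul_assoc, div_mul_cancel₀ _ hs.ne', ← hN] at h6
    have h7 := (x.le_opNorm φ).trans
      (mul_le_mul_of_nonneg_left ((hA φ hφ).trans (le_abs_self R)) hp.le)
    nlinarith
  by_contra hφK
  obtain ⟨f, u, f1, f2⟩ := RCLike.geometric_hahn_banach_open (𝕜 := ℂ) (convex_ball φ η')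
    Metric.isOpen_ball (t := {ξ | ∀ x : StrongDual ℂ X, ‖x ξ‖ ≤ N * √(B x x).re})
    (fun a ha b hb s t hs ht hst x => by
      rw [map_add, ← Complex.coe_smul, ← Complex.coe_smul, map_smul, map_smul]
      refine (norm_add_le _ _).trans ?_
      rw [norm_smul, norm_smul, Complex.norm_real, Complex.norm_real, Real.norm_of_nonneg hs,
        Real.norm_of_nonneg ht]
      have := add_le_add (mul_le_mul_of_nonneg_left (ha x) hs) (mul_le_mul_of_nonneg_left (hb x) ht)
      rwa [← add_mul, hst, one_mul] at this)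
    (disjoint_left.2 fun k hk hK => hφK ⟨k, hK, φ - k, by
      rw [mem_closedBall_zero_iff, norm_sub_rev]; exact (mem_ball_iff_norm.1 hk).le, by simp⟩)
  have u0 : u ≤ 0 := by simpa using f2 0 fun x => by simp; positivity
  have u1 : u ≤ -(N * √(B f f).re) := by
    rcases (Real.sqrt_nonneg (B f f).re).eq_or_lt with h3 | h3
    · simpa [← h3] using u0
    obtain ⟨ξ, hξ⟩ := hn f
    have := f2 (((-(N / √(B f f).re) : ℝ) : ℂ) • ξ) fun x => by
      rw [map_smul, norm_smul, Complex.norm_real, norm_neg, Real.norm_of_nonneg (by positivity),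
        ← hξ, div_mul_eq_mul_div, div_le_iff₀ h3, mul_assoc, ← Real.sqrt_mul (hB x).1]
      exact mul_le_mul_of_nonneg_left (Real.le_sqrt_of_sq_le (hB.cs x f)) N0
    rw [map_smul, smul_eq_mul, ← hξ, RCLike.re_to_complex, Complex.re_ofReal_mul] at this
    refine this.trans (le_of_eq ?_)
    nth_rewrite 2 [← Real.mul_self_sqrt (hB f).1]
    field_simp
  have hp : 0 < (η + η') / 2 := by linarith
  have u2 := f1 φ (Metric.mem_ball_self (by linarith))
  rw [RCLike.re_to_complex] at u2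
  have u3 : ‖f‖ ≤ (u - (f φ).re) / ((η + η') / 2) :=
    norm_le_of_re f (div_nonneg (by linarith) hp.le) fun z hz => by
      have := f1 (φ + (((η + η') / 2 : ℝ) : ℂ) • z) (by
        rw [mem_ball_iff_norm, add_sub_cancel_left, norm_smul, Complex.norm_real,
          Real.norm_of_nonneg hp.le, hz]
        linarith)
      rw [map_add, map_smul, smul_eq_mul, RCLike.re_to_complex, Complex.add_re,
        Complex.re_ofReal_mul] at this
      rw [le_div_iff₀ hp]
      linarith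
  rw [le_div_iff₀ hp] at u3
  have u4 := (neg_le_abs _).trans ((Complex.abs_re_le_norm _).trans (bd f))
  have u5 : f = 0 := norm_le_zero_iff.1 (by nlinarith [norm_nonneg f])
  simp [u5] at u2
  linarith

end Pool.Agent.Lib.MP_05992d_an
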