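import Pool.Agent.Lib.MP_05992d_an.Basic

/-!
Positive forms, Peirce calculus and power associativity.
-/

namespace Pool.Agent.Lib.MP_05992d_an

open Filter Topology ComplexConjugate

variable {M : Type*} [NormedAddCommGroup M] [NormedSpace ℂ M]

/-- Bounded sesquilinear forms. -/
abbrev Form (M : Type*) [NormedAddCommGroup M] [NormedSpace ℂ M] : Type _ :=
  M →L[ℂ] M →L⋆[ℂ] ℂ

/-- Positive forms. -/
def PSD (B : Form M) : Prop := ∀ x, 0 ≤ (B x x).re ∧ (B x x).im = 0

theorem PSD.conj_symm {B : Form M} (h : PSD B) (x y : M) : conj (B y x) = B x y := by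
  have h1 := (h (x + y)).2
  have h2 := (h (x + Complex.I • y)).2
  have h3 := (h x).2
  have h4 := (h y).2
  simp only [map_add, add_apply, map_smulₛₗ, smul_apply, RingHom.id_apply, smul_eq_mul,
    Complex.add_im, Complex.mul_im, Complex.conj_I, Complex.I_re, Complex.I_im, Complex.neg_re,
    Complex.neg_im, Complex.mul_re, Complex.add_re] at h1 h2
  apply Complex.ext <;> simp <;> linarith

theorem PSD.cs {B : Form M} (h : PSD B) (x y : M) : ‖B x y‖ ^ 2 ≤ (B x x).re * (B y y).re := by
  let c : PreInnerProductSpace.Core ℂ M :=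
    { inner := fun x y => B y x
      conj_inner_symm := fun x y => h.conj_symm y x
      re_inner_nonneg := fun x => (h x).1
      add_left := fun x y z => by simp
      smul_left := fun x y r => by simp }
  have := @InnerProductSpace.Core.inner_mul_inner_self_le ℂ M _ _ _ c x y
  change ‖B y x‖ * ‖B x y‖ ≤ (B x x).re * (B y y).re at this
  rwa [← Complex.norm_conj (B y x), h.conj_symm, ← sq] at this

theorem PSD.sub_le {B : Form M} (h : PSD B) (x y : M) :
    (B (x - y) (x - y)).re ≤ 2 * (B x x).re + 2 * (B y y).re := by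
  have := (h (x + y)).1
  simp only [map_add, map_sub, add_apply, sub_apply, Complex.add_re, Complex.sub_re] at this ⊢
  linarith

theorem Form.re_le (B : Form M) (x : M) : (B x x).re ≤ ‖B‖ * ‖x‖ ^ 2 :=
  (Complex.re_le_norm _).trans ((B.le_opNorm₂ x x).trans (le_of_eq (by ring)))

variable {T : TripleProduct M}

/-- The form `(x, y) ↦ g {x, y, s}`. -/
noncomputable def form (T : TripleProduct M) (g : M →L[ℂ] ℂ) (s : M) : Form M :=
  (ContinuousLinearMap.compSL M (M →L[ℂ] M) ℂ (starRingEnd ℂ) (RingHom.id ℂ)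
    (g.comp (ContinuousLinearMap.apply ℂ M s))).comp T

@[simp] theorem form_apply (g : M →L[ℂ] ℂ) (s x y : M) : form T g s x y = g (T x y s) := rfl

theorem exists_bound (T : TripleProduct M) :
    ∃ C : ℝ, 1 ≤ C ∧ ∀ a b c, ‖T a b c‖ ≤ C * ‖a‖ * ‖b‖ * ‖c‖ := by
  obtain ⟨C, hC, h⟩ := @ContinuousLinearMap.bound ℂ ℂ M (M →L⋆[ℂ] M →L[ℂ] M) _
    NormedAddCommGroup.toSeminormedAddCommGroup _ _ _ _ (RingHom.id ℂ) _ T
  refine ⟨C + 1, by linarith, fun a b c =>
    (T a b).le_of_opNorm_le ((T a).le_of_opNorm_le ((h a).trans ?_) b) c⟩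
  gcongr; linarith

/-- A bound for the triple product. -/
noncomputable def cT (T : TripleProduct M) : ℝ := (exists_bound T).choose

theorem one_le_cT (T : TripleProduct M) : 1 ≤ cT T := (exists_bound T).choose_spec.1

theorem norm_T_le' (a b c : M) : ‖T a b c‖ ≤ cT T * ‖a‖ * ‖b‖ * ‖c‖ :=
  (exists_bound T).choose_spec.2 a b c

theorem norm_T_le {a b c : M} {α β γ : ℝ} (ha : ‖a‖ ≤ α) (hb : ‖b‖ ≤ β) (hc : ‖c‖ ≤ γ) :
    ‖T a b c‖ ≤ cT T * α * β * γ := by
  have := one_le_cT T
  have := (norm_nonneg _).trans ha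
  have := (norm_nonneg _).trans hb
  refine (norm_T_le' a b c).trans ?_
  gcongr

namespace JB

variable (h : JB T)
include h

theorem psd [CompleteSpace M] {f : M →L[ℂ] ℂ} {u : M} (s : St f u) : PSD (form T f u) := fun x =>
  ⟨s.re_nonneg (h.hermitian x) (h.spectrum_nonneg x), s.im_eq_zero (h.hermitian x)⟩

theorem norm_le_one {e : M} (he : T e e e = e) : ‖e‖ ≤ 1 := by
  have := h.norm_cube e
  rw [he] at this
  by_contra hc
  have h1 : 1 < ‖e‖ := not_le.1 hc
  nlinarith [mul_pos (sub_pos.2 h1) (sub_pos.2 h1)]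

theorem cube_left (x z : M) :
    T (T x x x) x z = (2 : ℂ) • T x x (T x x z) - T x (T x z x) x := by
  have h1 := h.jordan z x x x x
  rw [h.symm z x (T x x x), h.symm z x x, h.symm (T x x z) x x] at h1
  linear_combination (norm := module) h1

theorem eig {e u v w : M} {α β γ : ℝ} (hu : T e e u = (α : ℂ) • u) (hv : T e e v = (β : ℂ) • v)
    (hw : T e e w = (γ : ℂ) • w) : T e e (T u v w) = ((α - β + γ : ℝ) : ℂ) • T u v w := by
  rw [h.jordan, hu, hv, hw]
  simp only [map_smulₛₗ, smul_apply, RingHom.id_apply, Complex.conj_ofReal]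
  push_cast
  module

section Tri

variable {e : M} (he : T e e e = e)
include he

theorem LQ (z : M) : T e e (T e z e) = T e z e ∧ T e (T e e z) e = T e z e := by
  have h1 := h.jordan e e e z e
  have h2 := h.jordan e z e e e
  rw [he] at h1 h2
  rw [h.symm (T e z e) e e, h.symm z e e] at h2
  constructor
  · linear_combination (norm := module) (1 / 3 : ℂ) • h1 - (1 / 3 : ℂ) • h2
  · linear_combination (norm := module) (2 / 3 : ℂ) • h1 + (1 / 3 : ℂ) • h2

theorem QQ (z : M) : T e (T e z e) e = (2 : ℂ) • T e e (T e e z) - T e e z := by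
  have := h.cube_left e z
  rw [he] at this
  linear_combination (norm := module) this

theorem cubic (z : M) : (2 : ℂ) • T e e (T e e (T e e z)) = (3 : ℂ) • T e e (T e e z) - T e e z := by
  have h1 := h.QQ he (T e e z)
  rw [(h.LQ he z).2, h.QQ he] at h1
  linear_combination (norm := module) -h1

theorem eig_zero {z : M} {μ : ℝ} (hz : T e e z = (μ : ℂ) • z) (h0 : μ ≠ 0) (h1 : μ ≠ 1)
    (h2 : μ ≠ 1 / 2) : z = 0 := by
  have h3 := h.cubic he z
  simp only [hz, map_smul] at h3
  have h4 : ((μ * (μ - 1) * (2 * μ - 1) : ℝ) : ℂ) • z = 0 := by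
    push_cast
    linear_combination (norm := module) h3
  refine (smul_eq_zero.1 h4).resolve_left (Complex.ofReal_ne_zero.2 ?_)
  exact mul_ne_zero (mul_ne_zero h0 (sub_ne_zero.2 h1)) fun h => h2 (by linarith)

theorem peirce (z : M) : ∃ z₂ z₁ z₀ : M, z = z₂ + z₁ + z₀ ∧ T e e z₂ = ((1 : ℝ) : ℂ) • z₂ ∧
    T e e z₁ = ((1 / 2 : ℝ) : ℂ) • z₁ ∧ T e e z₀ = ((0 : ℝ) : ℂ) • z₀ ∧
    z₂ = (2 : ℂ) • T e e (T e e z) - T e e z ∧ z₁ = (4 : ℂ) • (T e e z - T e e (T e e z)) := by
  have h1 := h.cubic he z
  refine ⟨_, _, z - (3 : ℂ) • T e e z + (2 : ℂ) • T e e (T e e z), by module, ?_, ?_, ?_, rfl, rfl⟩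
  · simp only [map_sub, map_smul]
    push_cast
    linear_combination (norm := module) h1
  · simp only [map_sub, map_smul]
    push_cast
    linear_combination (norm := module) (-2 : ℂ) • h1
  · simp only [map_sub, map_add, map_smul]
    push_cast
    linear_combination (norm := module) h1

theorem QQ_of_two {z : M} (hz : T e e z = z) : T e (T e z e) e = z := by
  rw [h.QQ he, hz, hz]; module

theorem orth_e {c : M} (hc : T e e c = 0) : T c e = 0 ∧ T e c = 0 := by
  have he1 : T e e e = ((1 : ℝ) : ℂ) • e := by simpa using he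
  have hc0 : T e e c = ((0 : ℝ) : ℂ) • c := by simpa using hc
  have key : ∀ z, T c e (T e z e) = -T e (T e c z) e := fun z => by
    rw [h.jordan, h.symm c e e, hc]; simp
  have h1 : T c e = 0 := by
    ext z
    obtain ⟨z₂, z₁, z₀, rfl, a2, a1, a0, -, -⟩ := h.peirce he z
    have b2 : T c e z₂ = 0 := by
      have a3 : T e e (T e z₂ e) = ((1 : ℝ) : ℂ) • T e z₂ e := by simpa using (h.LQ he z₂).1
      rw [← h.QQ_of_two he (by simpa using a2 : T e e z₂ = z₂), key,
        h.eig_zero he (h.eig he1 hc0 a3) (by norm_num) (by norm_num) (by norm_num)]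
      simp
    rw [map_add, map_add, b2,
      h.eig_zero he (h.eig hc0 he1 a1) (by norm_num) (by norm_num) (by norm_num),
      h.eig_zero he (h.eig hc0 he1 a0) (by norm_num) (by norm_num) (by norm_num)]
    simp
  refine ⟨h1, ?_⟩
  ext z
  obtain ⟨z₂, z₁, z₀, rfl, a2, a1, a0, -, -⟩ := h.peirce he z
  have b0 : T e c z₀ = 0 := by
    have a3 : T e e (T e c z₀) = T e c z₀ := by simpa using h.eig he1 hc0 a0
    have a4 := key z₀
    rw [h1] at a4
    rw [← h.QQ_of_two he a3, neg_eq_zero.1 (a4.symm.trans (by simp))]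
    simp
  rw [map_add, map_add, b0,
    h.eig_zero he (h.eig he1 hc0 a2) (by norm_num) (by norm_num) (by norm_num),
    h.eig_zero he (h.eig he1 hc0 a1) (by norm_num) (by norm_num) (by norm_num)]
  simp

theorem orth {b c : M} (hb : T e e b = b) (hc : T e e c = 0) : T b c = 0 ∧ T c b = 0 := by
  have he1 : T e e e = ((1 : ℝ) : ℂ) • e := by simpa using he
  have hc0 : T e e c = ((0 : ℝ) : ℂ) • c := by simpa using hc
  have hb1 : T e e b = ((1 : ℝ) : ℂ) • b := by simpa using hb
  obtain ⟨o1, o2⟩ := h.orth_e he hc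
  have hd : T e e (T e b c) = 0 := by simpa using h.eig he1 hb1 hc0
  obtain ⟨o3, o4⟩ := h.orth_e he hd
  constructor
  · ext z
    have := h.jordan b e e c z
    rw [o2, o4, h.symm b e e, hb] at this
    simpa using this.symm
  · ext z
    have := h.jordan e b c e z
    rw [o1, o3, h.symm b e e, hb] at this
    simpa using this

theorem L_two {z : M} (hz : T e e z = z) : T z e = T e (T e z e) := by
  ext w
  have h1 := h.jordan z e e e w
  have h2 := h.jordan e e z e w
  rw [h.symm z e e, hz] at h1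
  rw [hz, he] at h2
  linear_combination (norm := module) -h1 - h2

theorem L_sq {c : M} (hc : T e e c = c) (hs : T e c e = c) : T (T c e c) e = T c c := by
  have h1 := h.L_two he hc
  rw [hs] at h1
  ext w
  have h2 := h.jordan c e c e w
  rw [← h1, h.symm c e e, hc] at h2
  linear_combination (norm := module) -h2

theorem state_L [CompleteSpace M] {f : M →L[ℂ] ℂ} (s : St f e) (z : M) : f (T e e z) = f z := by
  have he1 : T e e e = ((1 : ℝ) : ℂ) • e := by simpa using he
  obtain ⟨z₂, z₁, z₀, rfl, a2, a1, a0, -, -⟩ := h.peirce he z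
  have b1 : f z₁ = 0 := by
    have := (h.psd s).conj_symm z₁ e
    rw [form_apply, form_apply, h.symm z₁ e e, a1,
      h.eig_zero he (h.eig he1 a1 he1) (by norm_num) (by norm_num) (by norm_num)] at this
    simpa using this.symm
  have b0 : f z₀ = 0 := by
    set w := conj (f z₀) • z₀ with hw
    have hw0 : T e e w = 0 := by simpa [hw] using Or.inr (by simpa using a0)
    obtain ⟨o1, o2⟩ := h.orth_e he hw0
    have fw : f w = (‖f z₀‖ ^ 2 : ℝ) := by
      rw [hw, map_smul, smul_eq_mul, Complex.conj_mul']; simp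
    have key : ∀ t : ℝ, 0 < t → t ≤ 1 → ‖f z₀‖ ^ 2 ≤ t * ‖T w w w‖ := by
      intro t t0 t1
      have e1 : T (e + (t : ℂ) • w) (e + (t : ℂ) • w) (e + (t : ℂ) • w) =
          e + ((t ^ 3 : ℝ) : ℂ) • T w w w := by
        simp only [map_add, map_smulₛₗ, add_apply, smul_apply, RingHom.id_apply,
          Complex.conj_ofReal, he, hw0, o1, o2, h.symm w w e, zero_apply]
        push_cast
        module
      have e2 := h.norm_cube (e + (t : ℂ) • w)
      have e3 := norm_add_le e (((t ^ 3 : ℝ) : ℂ) • T w w w)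
      rw [norm_smul, Complex.norm_real, Real.norm_of_nonneg (by positivity), ← e1, e2] at e3
      have e4 := (Complex.re_le_norm _).trans (s.norm_le (e + (t : ℂ) • w))
      rw [map_add, map_smul, s.one, fw, smul_eq_mul, ← Complex.ofReal_mul, Complex.add_re,
        Complex.one_re, Complex.ofReal_re] at e4
      have e5 : 0 ≤ t * ‖f z₀‖ ^ 2 := by positivity
      have e6 : ‖e + (t : ℂ) • w‖ ≤ ‖e + (t : ℂ) • w‖ ^ 3 :=
        le_self_pow₀ (by linarith) (by norm_num)
      have e7 : t * ‖f z₀‖ ^ 2 ≤ t * (t * (t * ‖T w w w‖)) := by nlinarith [s.nu]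
      have e8 := le_of_mul_le_mul_left e7 t0
      have : 0 ≤ t * ‖T w w w‖ := by positivity
      nlinarith
    have lim : Tendsto (fun t : ℝ => t * ‖T w w w‖) (𝓝[>] 0) (𝓝 (0 * ‖T w w w‖)) :=
      (tendsto_id.mono_left nhdsWithin_le_nhds).mul_const _
    have := ge_of_tendsto lim (by
      filter_upwards [Ioc_mem_nhdsGT (show (0 : ℝ) < 1 by norm_num)] with t ht
      exact key t ht.1 ht.2)
    rw [zero_mul] at this
    exact norm_eq_zero.1 (by nlinarith [norm_nonneg (f z₀)])
  simp [map_add, a2, a1, a0, b1, b0]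

theorem state_Q [CompleteSpace M] {f : M →L[ℂ] ℂ} (s : St f e) (z : M) :
    f (T e z e) = conj (f z) := by
  have := (h.psd s).conj_symm e z
  rw [form_apply, form_apply, h.symm z e e, h.state_L he s] at this
  exact this.symm

theorem state_eig [CompleteSpace M] {f : M →L[ℂ] ℂ} (s : St f e) {z : M} {μ : ℝ}
    (hz : T e e z = (μ : ℂ) • z) (h1 : μ ≠ 1) : f z = 0 := by
  have := h.state_L he s z
  rw [hz, map_smul, smul_eq_mul] at this
  have h2 : ((μ - 1 : ℝ) : ℂ) * f z = 0 := by push_cast; linear_combination this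
  exact (mul_eq_zero.1 h2).resolve_left (Complex.ofReal_ne_zero.2 (sub_ne_zero.2 h1))

end Tri

theorem pow_assoc_aux (n : ℕ) : ∀ (x a : M) (i j k : ℕ), i + j + k = n →
    T ((T x a ^ i) x) ((T a x ^ j) a) ((T x a ^ k) x) = (T x a ^ (n + 1)) x := by
  induction n using Nat.strong_induction_on with
  | _ n ih =>
  intro x a
  set X : ℕ → M := fun i => (T x a ^ i) x with hX
  set A : ℕ → M := fun i => (T a x ^ i) a with hA
  have hs : ∀ i, T x a (X i) = X (i + 1) := fun i => by
    simp only [hX, pow_succ']; rfl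
  have ih1 : ∀ i j k, i + j + k < n → T (X i) (A j) (X k) = X (i + j + k + 1) :=
    fun i j k hl => ih _ hl x a i j k rfl
  have ih2 : ∀ i j k, i + j + k < n → T (A i) (X j) (A k) = A (i + j + k + 1) :=
    fun i j k hl => ih _ hl a x i j k rfl
  have h0 : T (X 0) (A 0) (X n) = X (n + 1) := hs n
  have J : ∀ i j p q r, i + j + p + q + r + 1 = n → T (X i) (A j) (X (p + q + r + 1)) =
      T (X (i + j + p + 1)) (A q) (X r) - T (X p) (A (j + i + q + 1)) (X r) +
        T (X p) (A q) (X (i + j + r + 1)) := by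
    intro i j p q r hn
    rw [← ih1 p q r (by omega), h.jordan, ih1 i j p (by omega), ih1 i j r (by omega),
      ih2 j i q (by omega)]
  have g1 : ∀ i j m, i + j + (m + 1) = n →
      T (X i) (A j) (X (m + 1)) = T (X 0) (A (i + j)) (X (m + 1)) := by
    intro i j m hn
    have h1 := J i j m 0 0 (by omega)
    have h2 := J 0 (i + j) m 0 0 (by omega)
    simp only [add_zero, zero_add, add_comm j i] at h1 h2
    rw [h1, h2]
  have g2 : ∀ i m, i + (m + 1) = n → T (X 0) (A i) (X (m + 1)) = X (n + 1) := by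
    rcases n with _ | n
    · intro i m hn; omega
    have a1 : T (X 0) (A n) (X 1) = X (n + 2) := by
      have h1 := J 0 n 0 0 0 (by omega)
      have h2 := h.jordan (X 0) (A 0) (X 0) (A n) (X 0)
      rw [ih1 0 n 0 (by omega), ih1 0 0 0 (by omega), ih2 0 0 n (by omega),
        h.symm (X (0 + 0 + 0 + 1))] at h2
      rw [h.symm (X (0 + n + 0 + 1))] at h1
      simp only [add_zero, zero_add] at h1 h2
      rw [h0] at h1 h2
      linear_combination (norm := module) (1 / 3 : ℂ) • h1 - (1 / 3 : ℂ) • h2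
    intro i m hn
    rcases i with _ | i
    · obtain rfl : m = n := by omega
      exact h0
    · rw [← a1, show i + 1 = 1 + i by omega, ← g1 1 i m (by omega), h.symm,
        g1 (m + 1) i 0 (by omega), show m + 1 + i = n by omega]
  intro i j k hn
  change T (X i) (A j) (X k) = X (n + 1)
  rcases k with _ | k
  · rcases i with _ | i
    · obtain rfl : j = n := by omega
      rcases j with _ | j
      · exact h0
      · have h1 := J 0 j 0 0 0 (by omega)
        rw [h.symm (X (0 + j + 0 + 1))] at h1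
        simp only [add_zero, zero_add] at h1
        rw [h0, g2 j 0 (by omega)] at h1
        linear_combination (norm := module) h1
    · rw [h.symm, g2 j i (by omega)]
  · rw [g1 i j k hn, g2 _ k hn]

theorem pow_assoc (x a : M) (i j k : ℕ) :
    T ((T x a ^ i) x) ((T a x ^ j) a) ((T x a ^ k) x) = (T x a ^ (i + j + k + 1)) x :=
  h.pow_assoc_aux _ x a i j k rfl

end JB

end Pool.Agent.Lib.MP_05992d_an
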