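import Pool.Agent.Lib.MP_05992d_an.Calc

/-!
The two functional calculi, norms through states, and the smallness lemma.
-/

namespace Pool.Agent.Lib.MP_05992d_an

open Filter Topology Set ComplexConjugate

variable {M : Type*} [NormedAddCommGroup M] [NormedSpace ℂ M] {T : TripleProduct M}

theorem eq_one_of_re {z : ℂ} (h1 : ‖z‖ ≤ 1) (h2 : 1 ≤ z.re) : z = 1 := by
  have h3 := Complex.re_le_norm z
  have h4 := Complex.sq_norm_sub_sq_re z
  have h5 : ‖z‖ = z.re := by linarith
  rw [h5, sub_self] at h4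
  exact Complex.ext (by simp; linarith) (by simpa using h4.symm)

theorem exists_norm_add_le {e z : M} (he : ‖e‖ ≤ 1) {β ε : ℝ} (hε : 0 < ε)
    (h : ∀ f, St f e → (f z).re ≤ β) : ∃ s : ℝ, 0 < s ∧ ‖e + (s : ℂ) • z‖ ≤ 1 + s * (β + ε) := by
  by_contra hc
  push Not at hc
  let K : Set (WeakDual ℂ M) := WeakDual.toStrongDual ⁻¹' Metric.closedBall 0 1 ∩
    {f | β + ε ≤ (f z).re}
  have hK : IsCompact K := (WeakDual.isCompact_closedBall 0 1).inter_right
    (isClosed_le continuous_const (Complex.continuous_re.comp (WeakDual.eval_continuous z)))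
  have ex : ∀ s : ℝ, 0 < s → ∃ f ∈ K, 1 + s * (β + ε) - s * ‖z‖ ≤ (f e).re := by
    intro s hs
    obtain ⟨f, f1, f2⟩ := exists_dual_vector'' ℂ (e + (s : ℂ) • z)
    have h1 := congrArg Complex.re f2
    have h2 := (Complex.re_le_norm _).trans (f.le_of_opNorm_le f1 e)
    have h3 := (Complex.re_le_norm _).trans (f.le_of_opNorm_le f1 z)
    have h4 := hc s hs
    rw [map_add, map_smul, smul_eq_mul, Complex.add_re, Complex.re_ofReal_mul] at h1
    change _ = ‖e + (s : ℂ) • z‖ at h1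
    refine ⟨StrongDual.toWeakDual f, ⟨by simpa using f1, ?_⟩, ?_⟩
    · change β + ε ≤ (f z).re
      nlinarith
    · change _ ≤ (f e).re
      nlinarith
  obtain ⟨f, hf, hmax⟩ := hK.exists_isMaxOn (f := fun f => (f e).re)
    (by obtain ⟨f, hf, -⟩ := ex 1 one_pos; exact ⟨f, hf⟩)
    (Complex.continuous_re.comp (WeakDual.eval_continuous e)).continuousOn
  have f1 : ‖WeakDual.toStrongDual f‖ ≤ 1 := by simpa using hf.1
  have lim : Tendsto (fun s : ℝ => 1 + s * (β + ε) - s * ‖z‖) (𝓝[>] 0)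
      (𝓝 (1 + 0 * (β + ε) - 0 * ‖z‖)) :=
    (Continuous.tendsto (by fun_prop) 0).mono_left nhdsWithin_le_nhds
  have h1 : 1 + 0 * (β + ε) - 0 * ‖z‖ ≤ (f e).re := le_of_tendsto lim (by
    filter_upwards [self_mem_nhdsWithin] with s hs
    obtain ⟨g, hg, h2⟩ := ex s hs
    exact h2.trans (hmax hg))
  have h2 : ‖f e‖ ≤ 1 := ((WeakDual.toStrongDual f).le_of_opNorm_le f1 e).trans (by linarith)
  have h3 : f e = 1 := eq_one_of_re h2 (by simpa using h1)
  have := h _ ⟨f1, he, h3⟩
  have h5 : β + ε ≤ (f z).re := hf.2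
  change (f z).re ≤ β at this
  linarith

theorem small_num {C ρ ε : ℝ} (hC : 0 ≤ C) (hρ : 0 ≤ ρ) (hε : 0 < ε) : ∃ σ : ℝ, 0 < σ ∧
    ∀ a c d x₁ x₂ : ℝ, x₂ ≤ 2 * σ → a ≤ 2 * σ ^ 2 → d ≤ 4 * C * ρ ^ 2 * σ ^ 2 + 2 * C * ρ ^ 3 * σ →
      c ^ 3 ≤ 2 * C ^ 2 * ρ ^ 2 * d → x₁ ^ 3 ≤ 2 * C * ρ * (2 * a + c) → x₂ + x₁ ≤ ε := by
  have ev : ∀ (g : ℝ → ℝ) (η : ℝ), Continuous g → g 0 = 0 → 0 < η →
      ∀ᶠ σ in 𝓝[>] (0 : ℝ), g σ < η := fun g η h1 h2 h3 =>
    ((h1.tendsto 0).eventually (gt_mem_nhds (h2.trans_lt h3))).filter_mono nhdsWithin_le_nhds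
  obtain ⟨η, h1, h2⟩ := ((ev (fun η => 2 * C * ρ * (2 * η)) ((ε / 2) ^ 3) (by fun_prop) (by simp)
    (by positivity)).and self_mem_nhdsWithin).exists
  have h2 : 0 < η := h2
  obtain ⟨σ, ⟨⟨h3, h4⟩, h5⟩, h6⟩ := ((((ev (fun σ => 2 * σ) (ε / 2) (by fun_prop) (by simp)
    (by positivity)).and (ev (fun σ => 4 * σ ^ 2) η (by fun_prop) (by simp) h2)).and
    (ev (fun σ => 2 * C ^ 2 * ρ ^ 2 * (4 * C * ρ ^ 2 * σ ^ 2 + 2 * C * ρ ^ 3 * σ)) (η ^ 3)
      (by fun_prop) (by simp) (by positivity))).and self_mem_nhdsWithin).exists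
  refine ⟨σ, h6, fun a c d x₁ x₂ a1 a2 a3 a4 a5 => ?_⟩
  have b1 : c < η := lt_of_pow_lt_pow_left₀ 3 h2.le
    (a4.trans_lt ((mul_le_mul_of_nonneg_left a3 (by positivity)).trans_lt h5))
  have b2 : x₁ < ε / 2 := lt_of_pow_lt_pow_left₀ 3 (by positivity)
    (a5.trans_lt ((mul_le_mul_of_nonneg_left (by linarith) (by positivity)).trans_lt h1))
  linarith

namespace JB

variable [CompleteSpace M] (h : JB T)
include h

theorem triple_calc (y : M) : ∃ Φ : C(ℝ, ℝ) →+ M,
    Calc T (ContinuousMap.id ℝ) (Icc 0 ‖y‖) Φ ∧ Φ 1 = y ∧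
      ∀ e, T e e y = 0 → ∀ f, T e e (Φ f) = 0 := by
  set R := ‖T y y‖ * ‖(1 : M →L[ℂ] M)‖
  obtain ⟨Φ, h1, h2, h3, h4, -, h5⟩ := exists_calc h (T y y) y 1 (lo := 0) (hi := R)
    (fun z hz => ⟨(h.spectrum_nonneg y z hz).2, (h.spectrum_nonneg y z hz).1,
      (Complex.re_le_norm _).trans (spectrum.norm_le_norm_mul_of_mem hz)⟩) (h.pow_assoc y y)
  let r : C(ℝ, ℝ) := ⟨Real.sqrt, Real.continuous_sqrt⟩
  let ρ : C(ℝ, ℝ) →+ C(ℝ, ℝ) :=
    { toFun := fun f => f.comp r, map_zero' := rfl, map_add' := fun _ _ => rfl }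
  have c : Calc T (ContinuousMap.id ℝ) (Icc 0 √R) (Φ.comp ρ) := by
    refine ⟨isCompact_Icc, fun s f => h1 s (ρ f), fun f g k => ?_, fun f B hB hf => ?_⟩
    · refine (h2 (ρ f) (ρ g) (ρ k)).trans ?_
      change _ = Φ (ρ _)
      rw [← sub_eq_zero, ← map_sub, ← norm_le_zero_iff]
      refine h3 _ 0 le_rfl fun t ht => ?_
      simp [ρ, r, Real.mul_self_sqrt ht.1]
    · refine h3 (ρ f) B hB fun t ht => ?_
      have := hf √t ⟨Real.sqrt_nonneg _, Real.sqrt_le_sqrt ht.2⟩
      simpa [ρ, r, abs_of_nonneg ht.1] using this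
  have e1 : (Φ.comp ρ) 1 = y := h4
  refine ⟨Φ.comp ρ, (c.shrink h (g := 1) (ρ := ‖y‖) (by rw [e1])).mono (fun t ht => ⟨ht.1.1, ?_⟩)
    isCompact_Icc, e1, fun e he f => h5 (T e e) (fun n => ?_) _⟩
  · exact (le_abs_self t).trans (by simpa using ht.2)
  · induction n with
    | zero => simpa using he
    | succ n ih =>
      have := h.eig (e := e) (u := y) (v := y) (w := (T y y ^ n) y) (α := 0) (β := 0) (γ := 0)
        (by simpa using he) (by simpa using he) (by simpa using ih)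
      rw [pow_succ']
      simpa using this

theorem alg_calc {e z : M} (he : T e e e = e) (hz : T e e z = z) (hs : T e z e = z) {lo hi : ℝ}
    (hf : ∀ f, St f e → lo ≤ (f z).re ∧ (f z).re ≤ hi) : ∃ Φ : C(ℝ, ℝ) →+ M,
    Calc T 1 (Icc lo hi) Φ ∧ Φ 1 = e ∧ Φ (ContinuousMap.id ℝ) = z := by
  have hL := h.L_two he hz
  rw [hs] at hL
  set R := ‖T z e‖ * ‖(1 : M →L[ℂ] M)‖
  have hze : T z e e = z := by rw [h.symm, hz]
  have h2 : ∀ c : ℕ, T e e ((T z e ^ c) e) = (T z e ^ c) e := by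
    intro c
    induction c with
    | zero => simpa using he
    | succ n ih =>
      have := h.eig (e := e) (u := z) (v := e) (w := (T z e ^ n) e) (α := 1) (β := 1) (γ := 1)
        (by simpa using hz) (by simpa using he) (by simpa using ih)
      rw [pow_succ']
      simpa using this
  have h3 : ∀ c : ℕ, (T z e ^ (c + 1)) e = (T z e ^ c) z := fun c => by
    rw [pow_succ, mul_apply_eq_comp, hze]
  obtain ⟨Φ, c1, c2, c3, c4, c5, -⟩ := exists_calc h (T z e) e 0 (lo := -R) (hi := R)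
    (fun w hw => ⟨spectrum_im_eq_zero (fun f u s => by
        have h1 := (h.psd s (z + e)).2
        have h2 := (h.psd s (z - e)).2
        simp only [form_apply, map_add, map_sub, add_apply, sub_apply, ← hL, Complex.add_im,
          Complex.sub_im] at h1 h2
        linarith) w hw,
      abs_le.1 ((Complex.abs_re_le_norm _).trans (spectrum.norm_le_norm_mul_of_mem hw))⟩)
    (fun a b c => by
      rcases b with _ | b
      · rcases a with _ | a
        · simpa using h2 c
        rcases c with _ | c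
        · rw [h.symm]; simpa using h2 (a + 1)
        · have := h.pow_assoc z e a 0 c
          rw [← hL, ← h3, ← h3, ← h3] at this
          rw [this]; congr 2; ring
      · have := h.pow_assoc e z a b c
        rw [← hL, ← h3] at this
        rw [this]; congr 2; ring)
  have c : Calc T 1 (Icc (-R) R) Φ := ⟨isCompact_Icc, c1, fun f g k => by simpa using c2 f g k,
    fun f B hB hf => c3 f B hB fun t ht => by simpa using hf t ht⟩
  have key : ∀ (K : Set ℝ) (g : C(ℝ, ℝ)) (β : ℝ), Calc T 1 K Φ →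
      (∀ f, St f e → (f (Φ g)).re ≤ β) → Calc T 1 (K ∩ {t | g t - β ≤ 0}) Φ := by
    intro K g β c hg
    refine c.shrink_aux ⟨fun t => g t - β, by fun_prop⟩ fun ε hε f hf => ?_
    obtain ⟨s, s1, s2⟩ := exists_norm_add_le (h.norm_le_one he) (half_pos hε) hg
    rw [← c4, ← c.smul, ← map_add] at s2
    rw [← map_zero Φ]
    refine (c.shrink h s2).congr fun t ht => ?_
    by_contra hne
    have h1 : ε ≤ g t - β := hf t ht.1 (by simpa using hne)
    have h2 : 1 + s * g t ≤ 1 + s * (β + ε / 2) := (le_abs_self _).trans (by simpa using ht.2)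
    nlinarith
  rw [hze] at c5
  refine ⟨Φ, (key _ (-ContinuousMap.id ℝ) (-lo) (key _ (ContinuousMap.id ℝ) hi c fun f s => ?_)
    fun f s => ?_).mono (fun t ht => ⟨?_, ?_⟩) isCompact_Icc, c4, c5⟩
  · rw [c5]; exact (hf f s).2
  · rw [map_neg, c5, map_neg, Complex.neg_re]; exact neg_le_neg (hf f s).1
  · simpa using ht.2
  · simpa using ht.1.2

theorem norm_le_of_states {e z : M} (he : T e e e = e) (hz : T e e z = z) {β : ℝ} (hβ : 0 ≤ β)
    (hf : ∀ f, St f e → ‖f z‖ ≤ β) : ‖z‖ ≤ 2 * β := by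
  have key : ∀ w, T e e w = w → T e w e = w → (∀ f, St f e → |(f w).re| ≤ β) → ‖w‖ ≤ β := by
    intro w h1 h2 h3
    obtain ⟨Φ, c, -, c2⟩ := h.alg_calc he h1 h2 fun f s => abs_le.1 (h3 f s)
    exact c2 ▸ c.bound _ β hβ fun t ht => by simpa using abs_le.2 ht
  have q1 := (h.LQ he z).1
  have q2 := h.QQ_of_two he hz
  have h1 := key ((1 / 2 : ℂ) • (z + T e z e)) (by simp [hz, q1]) (by simp [q2, add_comm, map_ofNat])
    fun f s => by
      have := (Complex.abs_re_le_norm _).trans (hf f s)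
      rw [map_smul, map_add, h.state_Q he s, Complex.add_conj]
      simpa using this
  have h2 := key ((Complex.I / 2) • (T e z e - z)) (by simp [hz, q1])
    (by simp [q2, smul_sub, neg_div, map_ofNat]; abel) fun f s => by
      have := (Complex.abs_im_le_norm _).trans (hf f s)
      rw [map_smul, map_sub, h.state_Q he s, ← neg_sub, Complex.sub_conj]
      have e : (Complex.I / 2) • -(((2 * (f z).im : ℝ) : ℂ) * Complex.I) = ((f z).im : ℂ) := by
        push_cast
        rw [smul_eq_mul]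
        linear_combination (-(f z).im : ℂ) * Complex.I_mul_I
      rwa [e, Complex.ofReal_re]
  have e : z = (1 / 2 : ℂ) • (z + T e z e) + Complex.I • (Complex.I / 2) • (T e z e - z) := by
    rw [smul_smul, ← mul_div_assoc, Complex.I_mul_I]; module
  rw [e]
  refine (norm_add_le _ _).trans ?_
  rw [norm_smul Complex.I, Complex.norm_I]
  linarith

theorem small {ε : ℝ} (hε : 0 < ε) : ∃ σ : ℝ, 0 < σ ∧ ∀ e x : M, T e e e = e → ‖x‖ ≤ 1 →
    (∀ f, St f e → (f (T x x e)).re ≤ σ ^ 2) → ‖T e e x‖ ≤ ε := by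
  have hC := one_le_cT T
  set C := cT T with hCd
  obtain ⟨σ, hσ, num⟩ := small_num (C := C) (ρ := 4 * (C + C * C)) (by linarith) (by positivity) hε
  refine ⟨σ, hσ, fun e x he hx hf => ?_⟩
  have he1 : T e e e = ((1 : ℝ) : ℂ) • e := by simpa using he
  have ne := h.norm_le_one he
  obtain ⟨x₂, y, x₀, hd, a2, a1, a0, -, b1⟩ := h.peirce he x
  have ny : ‖y‖ ≤ 4 * (C + C * C) := by
    have h1 : ‖T e e x‖ ≤ C := by simpa using norm_T_le (T := T) ne ne hx
    have h2 : ‖T e e (T e e x)‖ ≤ C * C := by simpa using norm_T_le (T := T) ne ne h1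
    rw [b1, norm_smul]
    have := norm_sub_le (T e e x) (T e e (T e e x))
    simp only [Complex.norm_ofNat]
    linarith
  set ρ := 4 * (C + C * C)
  have hρ : 0 ≤ ρ := (norm_nonneg _).trans ny
  have n2 : ‖x₂‖ ≤ 2 * σ := h.norm_le_of_states he (by simpa using a2) hσ.le fun f s => by
    have h1 := (h.psd s).cs x e
    rw [form_apply, form_apply, form_apply, he, s.one, h.symm x e e, h.state_L he s] at h1
    have h2 : f x = f x₂ := by
      rw [hd, map_add, map_add, h.state_eig he s a1 (by norm_num),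
        h.state_eig he s a0 (by norm_num)]
      simp
    rw [← h2]
    exact le_of_sq_le_sq (h1.trans (by simpa using hf f s)) hσ.le
  have s1 : ∀ f, St f e → ‖f (T y y e)‖ ≤ σ ^ 2 := by
    intro f s
    have h1 := (h.psd s).cs x y
    have h2 : f (T x y e) = f (T y y e) := by
      rw [hd]
      simp only [map_add, add_apply]
      rw [h.state_eig he s (h.eig a2 a1 he1) (by norm_num),
        h.state_eig he s (h.eig a0 a1 he1) (by norm_num)]
      simp
    rw [form_apply, form_apply, form_apply, h2] at h1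
    have h3 := Complex.re_le_norm (f (T y y e))
    have h4 := (h.psd s y).1
    have h5 := hf f s
    rw [form_apply] at h4
    by_contra hc
    nlinarith [norm_nonneg (f (T y y e)), sq_nonneg σ]
  have na : ‖T y y e‖ ≤ 2 * σ ^ 2 :=
    h.norm_le_of_states he (by simpa using h.eig a1 a1 he1) (by positivity) s1
  have a3 := h.eig a1 a1 a1
  have nb : ‖T (T y y y) y e‖ ≤ 2 * (C * ρ ^ 3 * σ) :=
    h.norm_le_of_states he (by simpa using h.eig a3 a1 he1) (by positivity) fun f s => by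
      have h1 := (h.psd s).cs (T y y y) y
      rw [form_apply, form_apply, form_apply] at h1
      have h2 : ‖T y y y‖ ≤ ρ ^ 3 := h.norm_cube y ▸ pow_le_pow_left₀ (norm_nonneg _) ny 3
      have h3 := ((Complex.re_le_norm _).trans (s.norm_le _)).trans (norm_T_le (T := T) h2 h2 ne)
      have h4 := (Complex.re_le_norm _).trans (s1 f s)
      have h5 := mul_le_mul h3 h4 (h.psd s y).1 (by positivity)
      refine le_of_sq_le_sq ((h1.trans h5).trans ?_) (by positivity)
      have : 0 ≤ (C - 1) * (C * (ρ ^ 3 * σ) ^ 2) := mul_nonneg (by linarith) (by positivity)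
      rw [← hCd]
      nlinarith
  set c := T y e y with hc
  have c0 : T e e c = 0 := by
    have := h.eig a1 he1 a1
    norm_num at this
    exact this
  have nd : ‖T y c y‖ ≤ 4 * C * ρ ^ 2 * σ ^ 2 + 2 * C * ρ ^ 3 * σ := by
    have h1 : T y c y = (2 : ℂ) • T y y (T y y e) - T (T y y y) y e := by
      rw [h.cube_left]; module
    have h2 := norm_T_le (T := T) ny ny na
    rw [h1]
    refine (norm_sub_le _ _).trans ?_
    rw [norm_smul, Complex.norm_ofNat]
    nlinarith
  have nc : ‖c‖ ^ 3 ≤ 2 * C ^ 2 * ρ ^ 2 * ‖T y c y‖ := by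
    have j1 := h.jordan y e y c y
    have j2 := h.jordan y c y e y
    have j3 := h.jordan c c y e y
    rw [← hc, h.symm y c c] at j1 j2
    rw [h.symm (T y c y) e y, h.symm c y e] at j2
    have h1 : T c c y = T y e (T y c y) := by
      linear_combination (norm := module) (-1 / 3 : ℂ) • j1 + (1 / 3 : ℂ) • j2
    rw [← hc, h.symm c c e, (h.orth_e he c0).2, h.symm (T c c y) e y, h1] at j3
    have h2 := norm_T_le (T := T) ny ne (norm_T_le (T := T) ny ne (le_refl ‖T y c y‖))
    have h3 := norm_add_le (T y e (T y e (T y c y))) (T y e (T y e (T y c y)))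
    rw [← h.norm_cube, j3]
    simp only [zero_apply, map_zero, sub_zero]
    nlinarith
  have n1 : ‖y‖ ^ 3 ≤ 2 * C * ρ * (2 * ‖T y y e‖ + ‖c‖) := by
    have j := h.jordan y e y y e
    rw [← hc, h.symm e y y, h.symm y e e, a1, map_smul] at j
    have h1 : T y y y = (2 : ℂ) • (T y e (T y y e) + T y (T y y e) e - T c y e) := by
      push_cast at j
      linear_combination (norm := module) (-2 : ℂ) • j
    have h2 := norm_T_le (T := T) ny ne (le_refl ‖T y y e‖)
    have h3 := norm_T_le (T := T) ny (le_refl ‖T y y e‖) ne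
    have h4 := norm_T_le (T := T) (le_refl ‖c‖) ny ne
    have h5 := (norm_sub_le (T y e (T y y e) + T y (T y y e) e) (T c y e)).trans
      (add_le_add_left (norm_add_le _ _) _)
    rw [← h.norm_cube, h1, norm_smul, Complex.norm_ofNat]
    nlinarith
  have := num _ _ _ _ _ n2 na nd nc n1
  rw [hd, map_add, map_add, a2, a1, a0]
  refine le_trans ?_ this
  simp only [Complex.ofReal_one, one_smul, Complex.ofReal_zero, zero_smul, add_zero]
  refine (norm_add_le _ _).trans ?_
  rw [norm_smul, Complex.norm_real, Real.norm_of_nonneg (by norm_num)]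
  linarith [norm_nonneg y]

end JB

end Pool.Agent.Lib.MP_05992d_an
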