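import Pool.Agent.Lib.MP_05992d_an.Weak

/-!
Three uses of spectral tripotents.
-/

namespace Pool.Agent.Lib.MP_05992d_an

open Filter Topology Set NormedSpace ComplexConjugate

section Order

variable {M : Type*} [NormedAddCommGroup M] [NormedSpace ℂ M] {T : TripleProduct M}

/-- The order on tripotents. -/
structure Le (T : TripleProduct M) (e f : M) : Prop where
  tri : T e e e = e
  tri_sub : T (f - e) (f - e) (f - e) = f - e
  orth : T (f - e) (f - e) e = 0

namespace JB

variable (h : JB T)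
include h

theorem orth_symm {a b : M} (ha : T a a a = a) (o : T a a b = 0) : T b b a = 0 := by
  rw [h.symm, (h.orth_e ha o).2, zero_apply]

theorem L_add {a b : M} (ha : T a a a = a) (o : T a a b = 0) {θ : ℂ} (hθ : ‖θ‖ = 1) :
    T (a + θ • b) (a + θ • b) = T a a + T b b := by
  have e : conj θ * θ = 1 := by rw [Complex.conj_mul', hθ]; simp
  simp only [map_add, map_smulₛₗ, add_apply, smul_apply, RingHom.id_apply, (h.orth_e ha o).1,
    (h.orth_e ha o).2, smul_zero, add_zero, zero_add, smul_smul, e, one_smul]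

theorem tri_add {a b : M} (ha : T a a a = a) (hb : T b b b = b) (o : T a a b = 0) {θ : ℂ}
    (hθ : ‖θ‖ = 1) : T (a + θ • b) (a + θ • b) (a + θ • b) = a + θ • b := by
  rw [h.L_add ha o hθ]
  simp [ha, hb, o, h.orth_symm ha o]

end JB

namespace Le

variable {e f g : M}

theorem L_eq (l : Le T e f) (h : JB T) : T f f = T e e + T (f - e) (f - e) := by
  simpa using h.L_add l.tri (h.orth_symm l.tri_sub l.orth) norm_one

theorem tri_right (l : Le T e f) (h : JB T) : T f f f = f := by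
  simpa using h.tri_add l.tri l.tri_sub (h.orth_symm l.tri_sub l.orth) norm_one

theorem two (l : Le T e f) (h : JB T) {z : M} (hz : T e e z = z) : T f f z = z := by
  rw [l.L_eq h, add_apply, hz, h.symm, (h.orth l.tri hz (h.orth_symm l.tri_sub l.orth)).1]
  simp

theorem refl (he : T e e e = e) : Le T e e := ⟨he, by simp, by simp⟩

theorem trans (l : Le T e f) (l' : Le T f g) (h : JB T) : Le T e g := by
  have hf := l.tri_right h
  have o := h.orth_symm l'.tri_sub l'.orth
  have h1 : T f f e = e := l.two h l.tri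
  have h2 : T f f (f - e) = f - e := by rw [map_sub, hf, h1]
  have o1 : T (g - f) (g - f) (f - e) = 0 := by rw [h.symm, (h.orth hf h2 o).1, zero_apply]
  have o2 : T (g - f) (g - f) e = 0 := by rw [h.symm, (h.orth hf h1 o).1, zero_apply]
  have e1 : g - e = (g - f) + (1 : ℂ) • (f - e) := by simp
  refine ⟨l.tri, e1 ▸ h.tri_add l'.tri_sub l.tri_sub o1 norm_one, ?_⟩
  rw [e1, h.L_add l'.tri_sub o1 norm_one, add_apply, o2, l.orth, add_zero]

theorem re_le (l : Le T e f) (h : JB T) {g : M →L[ℂ] ℂ} {s : M}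
    (p : PSD (form T g s)) : (g (T e e s)).re ≤ (g (T f f s)).re := by
  have := (p (f - e)).1
  rw [l.L_eq h, add_apply, map_add, Complex.add_re]
  rw [form_apply] at this
  linarith

end Le

end Order

variable {X : Type*} [NormedAddCommGroup X] [NormedSpace ℂ X]
  {T : TripleProduct (StrongDual ℂ X)}

/-- The form `(x, y) ↦ {x, y, s}(ξ)` is positive. -/
def Pos (T : TripleProduct (StrongDual ℂ X)) (ξ : X) (s : StrongDual ℂ X) : Prop :=
  PSD (form T (inclusionInDoubleDual ℂ X ξ) s)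

namespace JBW

variable (h : JBW T)
include h

theorem shrink_tri {v : StrongDual ℂ X} (hv : T v v v = v) (x : StrongDual ℂ X) {δ : ℝ}
    (hδ : 0 < δ) : ∃ v', Le T v' v ∧ (∀ f, St f v' → (f (T x x v')).re ≤ 2 * δ) ∧
      ∀ ξ s, Pos T ξ s → (T (T v (T v (T x x v) v) v) v s ξ).im = 0 ∧
        δ * (T (v - v') (v - v') s ξ).re ≤ (T (T v (T v (T x x v) v) v) v s ξ).re := by
  set a := T v (T v (T x x v) v) v with ha
  have a2 : T v v a = a := (h.jb.LQ hv _).1
  have fa : ∀ f, St f v → f a = f (T x x v) := fun f s => by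
    rw [ha, h.jb.state_Q hv s, h.jb.state_Q hv s, Complex.conj_conj]
  have as : T v a v = a := by
    rw [← sub_eq_zero, ← norm_le_zero_iff, ← mul_zero 2]
    refine h.jb.norm_le_of_states hv (by rw [map_sub, a2, (h.jb.LQ hv _).1]) le_rfl fun f s => ?_
    rw [map_sub, h.jb.state_Q hv s, fa f s, 
      Complex.conj_eq_iff_im.2 (show (f (T x x v)).im = 0 from (h.jb.psd s x).2)]
    simp
  obtain ⟨Φ, c, c1, c2⟩ := h.jb.alg_calc hv a2 as (lo := 0) (hi := ‖a‖) fun f s =>
    ⟨fa f s ▸ (h.jb.psd s x).1, (Complex.re_le_norm _).trans (s.norm_le _)⟩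
  obtain ⟨E, s⟩ := c.exists_spec δ
  have tw : T (E 1) (E 1) (E 1) = E 1 := by simpa using h.EEE c s 1 1 1
  have ow : T (E 1) (E 1) (v - E 1) = 0 := by
    rw [map_sub, tw, ← c1, h.EEΦ c s]; simp
  have tv : T (v - E 1) (v - E 1) (v - E 1) = v - E 1 := by
    rw [← c1]
    simp only [map_sub, sub_apply, c.mul, h.EΦΦ c s, h.ΦEΦ c s, h.ΦΦE c s, h.EEΦ c s, h.EΦE c s,
      h.ΦEE c s, tw, mul_one]
    abel
  refine ⟨v - E 1, ⟨tv, by simpa using tw, by simpa using ow⟩, fun f sf => ?_,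
    fun ξ u p => ⟨?_, ?_⟩⟩
  · have o := h.jb.orth_symm tw ow
    have f0 : f (E 1) = 0 := h.jb.state_eig tv sf (μ := 0)
      (by rw [o, Complex.ofReal_zero]; exact (zero_smul ℂ (E 1)).symm) (by norm_num)
    have s1 : St f v := ⟨sf.nf, h.jb.norm_le_one hv, by simpa [f0] using sf.one⟩
    have s2 : St f (v - E 1 + Complex.I • E 1) := ⟨sf.nf,
      h.jb.norm_le_one (h.jb.tri_add tv tw o Complex.norm_I), by simpa [f0] using sf.one⟩
    have i1 := (h.jb.psd s2 x).2
    have i2 := (h.jb.psd sf x).2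
    rw [form_apply] at i1 i2
    rw [map_add, map_add, Complex.add_im, i2, map_smul, map_smul, smul_eq_mul, Complex.I_mul_im,
      zero_add] at i1
    have e1 : T (v - E 1) a (v - E 1) = Φ (ContinuousMap.id ℝ) - E (ContinuousMap.id ℝ) := by
      rw [← c1, ← c2]
      simp only [map_sub, sub_apply, c.mul, h.EΦΦ c s, h.ΦΦE c s, h.EΦE c s, mul_one, one_mul]
      abel
    have e2 : ‖T (v - E 1) a (v - E 1)‖ ≤ 2 * δ := by
      rw [e1]
      refine ((WL.const _).sub (s _)).norm_le (by positivity) ?_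
      filter_upwards [eventually_cut δ hδ] with n hn
      rw [← map_sub]
      refine c.bound _ _ (by positivity) fun t ht => ?_
      have h1 := cut_nonneg δ n t
      have h2 := cut_le_one δ n t
      simp only [ContinuousMap.one_apply, one_mul, ContinuousMap.sub_apply, ContinuousMap.id_apply,
        ContinuousMap.mul_apply]
      rcases le_total (δ + δ) t with h3 | h3
      · rw [hn t h3]; simpa using hδ.le
      · rw [abs_le]; constructor <;> nlinarith [ht.1]
    have e3 := (Complex.re_le_norm _).trans ((sf.norm_le _).trans e2)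
    rw [h.jb.state_Q tv sf, Complex.conj_re, fa f s1] at e3
    rw [map_sub, map_sub, Complex.sub_re, i1, sub_zero]
    exact e3
  · have h1 := p.conj_symm a v
    have h2 := h.jb.L_two hv a2
    rw [as] at h2
    rw [form_apply, form_apply, ← h2] at h1
    exact Complex.conj_eq_iff_im.1 h1
  · have e1 : T (E 1) (E 1) = T (E 1) v := by
      have := (h.jb.orth_e tw ow).2
      rw [map_sub, sub_eq_zero] at this
      exact this.symm
    rw [sub_sub_cancel, e1]
    have lim := (Complex.continuous_re.tendsto _).comp (h.left (s 1) v u ξ)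
    refine le_of_tendsto (lim.const_mul δ) (Eventually.of_forall fun n => ?_)
    let k : C(ℝ, ℝ) := ⟨fun t => √(t - δ * cut δ n t), by fun_prop⟩
    have e2 : Φ (k * k) = a - (δ : ℂ) • Φ (1 * cut δ n) := by
      rw [← c2, ← c.smul, ← map_sub]
      refine c.congr fun t ht => ?_
      have : 0 ≤ t - δ * cut δ n t := by
        rcases le_total t δ with h1 | h1
        · simpa [cut_of_le n h1] using ht.1
        · nlinarith [cut_le_one δ n t]
      simp [k, Real.mul_self_sqrt this]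
    have e3 := h.jb.L_sq hv (c := Φ k) (by rw [← c1, c.mul]; simp) (by rw [← c1, c.mul]; simp)
    have e4 : T (Φ k) v (Φ k) = Φ (k * k) := by rw [← c1, c.mul]; simp
    have e5 := (p (Φ k)).1
    rw [form_apply, ← e3, e4, e2] at e5
    simp only [map_sub, map_smul, sub_apply, smul_apply, dual_def, smul_eq_mul, Complex.sub_re,
      Complex.re_ofReal_mul] at e5
    simpa using e5

/-- The function `1 / max t τ`. -/
noncomputable def inv' (τ : ℝ) (hτ : 0 < τ) : C(ℝ, ℝ) :=
  ⟨fun t => (max t τ)⁻¹, (continuous_id.max continuous_const).inv₀ fun _ =>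
    (lt_max_of_lt_right hτ).ne'⟩

omit h in
theorem inv'_apply {τ : ℝ} (hτ : 0 < τ) {t : ℝ} (ht : τ < t) : inv' τ hτ t = t⁻¹ := by
  simp [inv', max_eq_left ht.le]

omit h in
theorem mul_inv'_cut {τ : ℝ} (hτ : 0 < τ) (n : ℕ) (t : ℝ) :
    t * (inv' τ hτ t * cut τ n t) = cut τ n t := by
  rcases le_or_gt t τ with h1 | h1
  · simp [cut_of_le n h1]
  · rw [inv'_apply hτ h1, ← mul_assoc, mul_inv_cancel₀ (hτ.trans h1).ne', one_mul]

theorem spec_tri {K : Set ℝ} {Φ : C(ℝ, ℝ) →+ StrongDual ℂ X}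
    (c : Calc T (ContinuousMap.id ℝ) K Φ) {τ : ℝ} (hτ : 0 < τ) :
    ∃ u, WL (fun n => Φ (inv' τ hτ * cut τ n)) u ∧ T u u u = u ∧
      ∀ ξ s, Pos T ξ s → τ ^ 2 * (T u u s ξ).re ≤ (T (Φ 1) (Φ 1) s ξ).re := by
  obtain ⟨E, s⟩ := c.exists_spec τ
  set ι := inv' τ hτ with hι
  have key : ∀ g, E (ι * ι * g * (ContinuousMap.id ℝ * ContinuousMap.id ℝ)) = E g := fun g =>
    s.congr c fun t _ ht => by
      have := (hτ.trans ht).ne'
      simp only [ContinuousMap.mul_apply, ContinuousMap.id_apply, hι, inv'_apply hτ ht]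
      field_simp
  have two : ∀ g, T (E ι) (E ι) (E g) = E g := fun g => by rw [h.EEE c s, key]
  have sa : ∀ g, T (E ι) (E g) (E ι) = E g := fun g => by
    rw [h.EEE c s, mul_right_comm ι g ι, key]
  refine ⟨E ι, s ι, two ι, fun ξ u p => ?_⟩
  have o : T (E ι) (E ι) (Φ 1 - E 1) = 0 := by rw [map_sub, two, h.EEΦ c s, key, sub_self]
  obtain ⟨o1, o2⟩ := h.jb.orth (two ι) (two 1) o
  have e1 : T (Φ 1) (Φ 1) = T (E 1) (E 1) + T (Φ 1 - E 1) (Φ 1 - E 1) := by
    have : Φ 1 = E 1 + (Φ 1 - E 1) := by abel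
    conv_lhs => rw [this]
    simp only [map_add, add_apply, o1, o2, add_zero, zero_add]
  let k : C(ℝ, ℝ) := ⟨fun t => √(t ^ 2 - τ ^ 2), by fun_prop⟩
  have e2 : T (E (k * ι)) (E ι) (E (k * ι)) = T (E 1) (E ι) (E 1) - ((τ ^ 2 : ℝ) : ℂ) • E ι := by
    rw [h.EEE c s, h.EEE c s, ← s.sub_smul c]
    refine s.congr c fun t _ ht => ?_
    have h1 := (hτ.trans ht).ne'
    have h2 : √(t ^ 2 - τ ^ 2) ^ 2 = t ^ 2 - τ ^ 2 := Real.sq_sqrt (by nlinarith)
    simp only [ContinuousMap.mul_apply, ContinuousMap.id_apply, hι, inv'_apply hτ ht, k,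
      ContinuousMap.coe_mk, ContinuousMap.sub_apply, ContinuousMap.smul_apply, smul_eq_mul,
      ContinuousMap.one_apply]
    field_simp
    linarith
  have e3 := h.jb.L_sq (two ι) (two (k * ι)) (sa _)
  rw [e2, map_sub, sub_apply, h.jb.L_sq (two ι) (two 1) (sa 1), map_smul, smul_apply] at e3
  have p1 := (p (E (k * ι))).1
  have p2 := (p (Φ 1 - E 1)).1
  rw [form_apply, ← e3] at p1
  rw [form_apply] at p2
  rw [e1]
  simp only [sub_apply, add_apply, smul_apply, dual_def, smul_eq_mul, Complex.sub_re,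
    Complex.add_re, Complex.re_ofReal_mul] at p1 p2 ⊢
  linarith

theorem exists_pos (φ : X) : ∃ ξ s, Pos T ξ s ∧ ∀ x : StrongDual ℂ X,
    ‖x φ‖ ^ 2 ≤ (T x x s ξ).re := by
  rcases eq_or_ne φ 0 with rfl | h0
  · exact ⟨0, 0, fun x => by simp, fun x => by simp⟩
  have hn : 0 < ‖φ‖ := norm_pos_iff.2 h0
  obtain ⟨y, y1, y2⟩ := exists_dual_vector'' ℂ φ
  set ψ := ((‖φ‖⁻¹ : ℝ) : ℂ) • φ with hψ
  have nψ : ‖inclusionInDoubleDual ℂ X ψ‖ ≤ 1 :=
    (double_dual_bound ℂ X ψ).trans (by simp [hψ, norm_smul, hn.ne'])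
  obtain ⟨Φ, c, c1, -⟩ := h.jb.triple_calc y
  have hτ : (0 : ℝ) < 1 / 2 := by norm_num
  obtain ⟨u, l, tu, -⟩ := h.spec_tri c hτ
  have nu := h.jb.norm_le_one tu
  have su : St (inclusionInDoubleDual ℂ X ψ) u := by
    refine ⟨nψ, nu, eq_one_of_re (((inclusionInDoubleDual ℂ X ψ).le_of_opNorm_le nψ u).trans
      (by simpa using nu)) ?_⟩
    refine ge_of_tendsto ((Complex.continuous_re.tendsto _).comp (l ψ))
      (((eventually_cut (1 / 2) (show (0 : ℝ) < 1 / 4 by norm_num)).mono fun n hc => ?_).filter_mono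
        Nat.hyperfilter_le_atTop)
    have b := c.bound ((4 / 3 : ℝ) • 1 - (1 / 3 : ℝ) • (inv' _ hτ * cut (1 / 2) n)) 1 zero_le_one
      fun t ht => by
        have h1 := cut_nonneg (1 / 2) n t
        have h2 := cut_le_one (1 / 2) n t
        have h3 := mul_inv'_cut hτ n t
        have h4 := ht.2.trans y1
        have h5 := ht.1
        simp only [ContinuousMap.id_apply, ContinuousMap.sub_apply, ContinuousMap.smul_apply,
          ContinuousMap.mul_apply, ContinuousMap.one_apply, smul_eq_mul]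
        rw [abs_le]
        rcases le_total (1 / 2 + 1 / 4) t with h6 | h6
        · have := hc t h6
          constructor <;> linarith
        · constructor <;> linarith
    have b2 := (Complex.re_le_norm _).trans
      (((inclusionInDoubleDual ℂ X ψ).le_of_opNorm_le nψ _).trans (by simpa using b))
    have y3 : y ψ = 1 := by simp [hψ, y2, hn.ne']
    simp only [map_sub, c.smul, c1, map_smul, dual_def, y3, smul_eq_mul, Complex.sub_re,
      Complex.re_ofReal_mul, Complex.one_re] at b2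
    simp only [Function.comp_apply]
    linarith
  have e : ∀ z : StrongDual ℂ X, z (((‖φ‖ ^ 2 : ℝ) : ℂ) • ψ) = ((‖φ‖ ^ 2 : ℝ) : ℂ) * z ψ :=
    fun z => by rw [map_smul, smul_eq_mul]
  refine ⟨((‖φ‖ ^ 2 : ℝ) : ℂ) • ψ, u, fun x => ?_, fun x => ?_⟩
  · have := h.jb.psd su x
    simp only [form_apply, dual_def, e, Complex.re_ofReal_mul, Complex.im_ofReal_mul] at this ⊢
    exact ⟨mul_nonneg (by positivity) this.1, by rw [this.2, mul_zero]⟩
  · have h1 := (h.jb.psd su).cs x u
    rw [form_apply, form_apply, form_apply, tu, su.one, h.jb.symm x u u,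
      h.jb.state_L tu su] at h1
    have h2 : ‖x φ‖ = ‖φ‖ * ‖x ψ‖ := by simp [hψ, hn.ne']
    rw [e, Complex.re_ofReal_mul, h2, mul_pow]
    exact mul_le_mul_of_nonneg_left (by simpa using h1) (by positivity)

theorem exists_tri (y : StrongDual ℂ X) (φ : X) {δ : ℝ} (hδ : 0 < δ) :
    ∃ u, T u u u = u ∧ (∀ e, T e e y = 0 → T e e u = 0) ∧
      (∀ ξ s, Pos T ξ s → δ ^ 2 * (T u u s ξ).re ≤ (T y y s ξ).re) ∧
      ‖y φ‖ ≤ 2 * δ * ‖φ‖ + (‖y‖ + δ) * ‖u φ‖ := by
  obtain ⟨Φ, c, c1, c2⟩ := h.jb.triple_calc y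
  have hτ : ∀ i : ℕ, (0 : ℝ) < (i + 1) * δ := fun i => by positivity
  choose u l tu pu using fun i : ℕ => h.spec_tri c (hτ i)
  set N := ⌊‖y‖ / δ⌋₊ + 1 with hN
  have N1 : ‖y‖ ≤ N * δ := (div_le_iff₀ hδ).1 (by
    rw [hN]; push_cast; exact (Nat.lt_floor_add_one _).le)
  have N2 : N * δ ≤ ‖y‖ + δ := by
    have := (le_div_iff₀ hδ).1 (Nat.floor_le (show 0 ≤ ‖y‖ / δ by positivity))
    rw [hN]; push_cast; linarith
  obtain ⟨i, -, hi⟩ := (Finset.range N).exists_max_image (fun i => ‖u i φ‖) ⟨0, by simp [hN]⟩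
  refine ⟨u i, tu i, fun e he => (h.right (l i) e e).eq_of_eventually
    (Eventually.of_forall fun n => c2 e he _), fun ξ s p => le_trans ?_ (c1 ▸ pu i ξ s p), ?_⟩
  · refine mul_le_mul_of_nonneg_right (pow_le_pow_left₀ hδ.le ?_ 2) (p (u i)).1
    nlinarith [(Nat.cast_nonneg i : (0 : ℝ) ≤ i)]
  have ls : ∀ m : ℕ, WL (fun n => ∑ j ∈ Finset.range m, Φ (inv' _ (hτ j) * cut ((j + 1) * δ) n))
      (∑ j ∈ Finset.range m, u j) := fun m ψ => by
    simpa using tendsto_finsetSum (Finset.range m) fun j _ => l j ψ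
  have b : ‖y - (δ : ℂ) • ∑ j ∈ Finset.range N, u j‖ ≤ 2 * δ := by
    refine ((WL.const _).sub ((ls N).smul _)).norm_le (by positivity) ?_
    have ev : ∀ᶠ n in atTop, ∀ j ∈ Finset.range N, ∀ t, (j + 1) * δ + δ ≤ t →
        cut ((j + 1) * δ) n t = 1 :=
      (eventually_all_finset _).2 fun j _ => eventually_cut _ hδ
    filter_upwards [ev] with n hn
    rw [← map_sum, ← c.smul, ← c1, ← map_sub]
    refine c.bound _ _ (by positivity) fun t ht => ?_
    have key : ∀ m ≤ N, δ * ∑ j ∈ Finset.range m, cut ((j + 1) * δ) n t ≤ min t (m * δ) ∧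
        min (t - 2 * δ) (m * δ) ≤ δ * ∑ j ∈ Finset.range m, cut ((j + 1) * δ) n t := by
      intro m hm
      induction m with
      | zero => simpa using ht.1
      | succ m ih =>
        obtain ⟨i1, i2⟩ := ih (by omega)
        have h1 := mul_nonneg hδ.le (cut_nonneg ((m + 1) * δ) n t)
        have h2 := mul_le_mul_of_nonneg_left (cut_le_one ((m + 1) * δ) n t) hδ.le
        rw [le_min_iff] at i1
        rw [Finset.sum_range_succ, mul_add, le_min_iff, min_le_iff]
        push_cast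
        refine ⟨⟨?_, by linarith [i1.2]⟩, ?_⟩
        · rcases le_total t ((m + 1) * δ) with h3 | h3
          · rw [cut_of_le n h3]; linarith [i1.1]
          · linarith [i1.2]
        · rcases le_total ((m + 1) * δ + δ) t with h3 | h3
          · rw [hn m (Finset.mem_range.2 hm) t h3]
            rw [min_eq_right (by linarith)] at i2
            right; linarith
          · rw [min_eq_left (by linarith)] at i2
            left; linarith
    obtain ⟨k1, k2⟩ := key N le_rfl
    rw [min_eq_left (by linarith [ht.2])] at k2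
    have k3 := k1.trans (min_le_left _ _)
    simp only [ContinuousMap.id_apply, ContinuousMap.sub_apply, ContinuousMap.smul_apply,
      ContinuousMap.one_apply, smul_eq_mul, ContinuousMap.coe_sum, Finset.sum_apply,
      ContinuousMap.mul_apply, mul_sub, mul_one]
    rw [mul_left_comm, Finset.mul_sum, Finset.sum_congr rfl fun j _ => mul_inv'_cut (hτ j) n t,
      abs_le]
    constructor <;> linarith
  have b2 := (y - (δ : ℂ) • ∑ j ∈ Finset.range N, u j).le_of_opNorm_le b φ
  have b3 : ‖((δ : ℂ) • ∑ j ∈ Finset.range N, u j) φ‖ ≤ (‖y‖ + δ) * ‖u i φ‖ := by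
    rw [smul_apply, norm_smul, Complex.norm_real, Real.norm_of_nonneg hδ.le, sum_apply]
    have := (norm_sum_le _ _).trans (Finset.sum_le_card_nsmul _ _ _ hi)
    rw [Finset.card_range, nsmul_eq_mul] at this
    nlinarith [norm_nonneg (u i φ)]
  have b4 := norm_add_le ((y - (δ : ℂ) • ∑ j ∈ Finset.range N, u j) φ)
    (((δ : ℂ) • ∑ j ∈ Finset.range N, u j) φ)
  rw [← add_apply, sub_add_cancel] at b4
  linarith

end JBW

end Pool.Agent.Lib.MP_05992d_an
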