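import Pool.Agent.Lib.MP_05992d_an.Omega

/-!
Orthogonal families and the inductive step.
-/

namespace Pool.Agent.Lib.MP_05992d_an

open Filter Topology Set NormedSpace ComplexConjugate

section Orth

variable {M : Type*} [NormedAddCommGroup M] [NormedSpace ℂ M] {T : TripleProduct M}

/-- Pairwise orthogonal tripotents indexed by `S`. -/
def OrthOn (T : TripleProduct M) (S : Finset ℕ) (d : ℕ → M) : Prop :=
  (∀ i ∈ S, T (d i) (d i) (d i) = d i) ∧ ∀ i ∈ S, ∀ j ∈ S, i ≠ j → T (d i) (d i) (d j) = 0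

theorem OrthOn.smul {S : Finset ℕ} {d : ℕ → M} (o : OrthOn T S d) {θ : ℕ → ℂ}
    (hθ : ∀ i, ‖θ i‖ = 1) : OrthOn T S fun i => θ i • d i := by
  have e : ∀ i, conj (θ i) * θ i = 1 := fun i => by rw [Complex.conj_mul', hθ]; simp
  refine ⟨fun i hi => ?_, fun i hi j hj hij => ?_⟩
  · simp only [map_smulₛₗ, smul_apply, RingHom.id_apply, o.1 i hi, smul_smul, e, mul_one]
  · simp only [map_smulₛₗ, smul_apply, RingHom.id_apply, o.2 i hi j hj hij, smul_zero]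

theorem OrthOn.L_sum {S S' : Finset ℕ} {d : ℕ → M} (o : OrthOn T S' d) (h : JB T)
    (hS : S ⊆ S') : T (∑ i ∈ S, d i) (∑ i ∈ S', d i) = ∑ i ∈ S, T (d i) (d i) := by
  rw [map_sum T, sum_apply]
  refine Finset.sum_congr rfl fun i hi => ?_
  rw [map_sum, Finset.sum_eq_single_of_mem i (hS hi) fun j hj hij =>
    (h.orth_e (o.1 i (hS hi)) (o.2 i (hS hi) j hj hij.symm)).2]

theorem OrthOn.apply_sum {S : Finset ℕ} {d : ℕ → M} (o : OrthOn T S d) {i : ℕ} (hi : i ∈ S) :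
    T (d i) (d i) (∑ j ∈ S, d j) = d i := by
  rw [map_sum, Finset.sum_eq_single_of_mem i hi fun j hj hij => o.2 i hi j hj hij.symm, o.1 i hi]

theorem OrthOn.mono {S S' : Finset ℕ} {d : ℕ → M} (o : OrthOn T S' d) (hS : S ⊆ S') :
    OrthOn T S d :=
  ⟨fun i hi => o.1 i (hS hi), fun i hi j hj => o.2 i (hS hi) j (hS hj)⟩

theorem OrthOn.tri_sum {S : Finset ℕ} {d : ℕ → M} (o : OrthOn T S d) (h : JB T) :
    T (∑ i ∈ S, d i) (∑ i ∈ S, d i) (∑ i ∈ S, d i) = ∑ i ∈ S, d i := by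
  rw [o.L_sum h subset_rfl, sum_apply]
  exact Finset.sum_congr rfl fun i hi => o.apply_sum hi

theorem Le.orth_of {a a' b b' : M} (l : Le T a a') (l' : Le T b b') (h : JB T)
    (o : T a' a' b' = 0) : T a a b = 0 := by
  have h1 : T a' a' b = 0 := by
    rw [h.symm, (h.orth (l'.tri_right h) (l'.two h l'.tri) (h.orth_symm (l.tri_right h) o)).1,
      zero_apply]
  rw [h.symm, (h.orth (l.tri_right h) (l.two h l.tri) h1).2, zero_apply]

theorem PSD.sum {ι : Type*} {S : Finset ι} {B : ι → Form M} (h : ∀ i ∈ S, PSD (B i)) :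
    PSD (∑ i ∈ S, B i) ∧ ∀ i ∈ S, ∀ x, (B i x x).re ≤ ((∑ i ∈ S, B i) x x).re := by
  refine ⟨fun x => ?_, fun i hi x => ?_⟩
  · simp only [sum_apply, Complex.re_sum, Complex.im_sum]
    exact ⟨Finset.sum_nonneg fun i hi => (h i hi x).1, Finset.sum_eq_zero fun i hi => (h i hi x).2⟩
  · simp only [sum_apply, Complex.re_sum]
    exact Finset.single_le_sum (f := fun i => (B i x x).re) (fun i hi => (h i hi x).1) hi

end Orth

variable {X : Type*} [NormedAddCommGroup X] [NormedSpace ℂ X]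
  {T : TripleProduct (StrongDual ℂ X)}

theorem OrthOn.summable {d : ℕ → StrongDual ℂ X} (o : ∀ S, OrthOn T S d) (h : JB T)
    (φ : X) : Summable fun i => ‖d i φ‖ := by
  choose θ h1 h2 using fun i => Complex.exists_norm_eq_mul_self (d i φ)
  refine summable_of_sum_range_le (c := ‖φ‖) (fun _ => norm_nonneg _) fun n => ?_
  have h3 := (∑ i ∈ Finset.range n, θ i • d i).le_of_opNorm_le
    (h.norm_le_one (((o (Finset.range n)).smul h1).tri_sum h)) φ
  simp only [sum_apply, smul_apply, smul_eq_mul, ← h2] at h3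
  rw [← Complex.ofReal_sum, Complex.norm_real, one_mul] at h3
  exact (le_abs_self _).trans h3

namespace JBW

variable (h : JBW T)
include h

theorem step [CompleteSpace X] {A : Set X} {R η ε : ℝ} (hA : ∀ φ ∈ A, ‖φ‖ ≤ R) (hR : 0 ≤ R)
    (hη : 0 ≤ η) (hω : ENNReal.ofReal η < deBlasi A) (hε : 0 < ε) (S : Finset ℕ)
    (v : ℕ → StrongDual ℂ X) (φ : ℕ → X) (o : OrthOn T S v) :
    ∃ (v' : ℕ → StrongDual ℂ X) (u : StrongDual ℂ X), ∃ ψ ∈ A,
      (∀ j ∈ S, Le T (v' j) (v j) ∧ ‖(v j - v' j) (φ j)‖ ≤ ε ∧ T (v' j) (v' j) u = 0) ∧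
      T u u u = u ∧ η ≤ ‖u ψ‖ ∧ ∀ w, Le T w u → ∀ j ∈ S, ‖w (φ j)‖ ≤ ε := by
  obtain ⟨η', -, h1, h2⟩ := ENNReal.lt_iff_exists_real_btwn.1 hω
  have h1 : η < η' := (ENNReal.ofReal_lt_ofReal_iff_of_nonneg hη).1 h1
  choose ξ s p dom using fun j => h.exists_pos (φ j)
  have hG : ∀ j, ∃ G : X, ∀ b, T (T (v j) (T (v j) b (v j)) (v j)) (v j) (s j) (ξ j) = b G ∨
      j ∉ S := by
    intro j
    by_cases hj : j ∈ S
    · obtain ⟨a, ha⟩ := h.normal (v j) (s j) (ξ j)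
      obtain ⟨a', ha'⟩ := h.normal (v j) (v j) a
      obtain ⟨a'', ha''⟩ := h.normal (v j) (v j) a'
      refine ⟨(2 : ℂ) • a'' - a', fun b => Or.inl ?_⟩
      rw [ha, h.jb.QQ (o.1 j hj), sub_apply, smul_apply, h.jb.symm (v j) (v j),
        h.jb.symm (v j) (v j), ha', ha', ha'', map_sub, map_smul]
    · exact ⟨0, fun _ => Or.inr hj⟩
  choose G hG using hG
  have hG : ∀ j ∈ S, ∀ b, T (T (v j) (T (v j) b (v j)) (v j)) (v j) (s j) (ξ j) = b (G j) :=
    fun j hj b => (hG j b).resolve_right (not_not.2 hj)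
  let B : ℕ × Bool → Form (StrongDual ℂ X) := fun i =>
    if i.2 then form T (inclusionInDoubleDual ℂ X (ξ i.1)) (s i.1)
    else form T (inclusionInDoubleDual ℂ X (G i.1)) (v i.1)
  obtain ⟨pB, leB⟩ := PSD.sum (S := S ×ˢ Finset.univ) (B := B) fun ⟨j, b⟩ hj => by
    cases b
    · have hj := (Finset.mem_product.1 hj).1
      intro x
      obtain ⟨v', -, -, h3⟩ := h.shrink_tri (o.1 j hj) x one_pos
      obtain ⟨h4, h5⟩ := h3 _ _ (p j)
      rw [hG j hj] at h4 h5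
      exact ⟨le_trans (by simpa using (p j (v j - v')).1) h5, h4⟩
    · exact p j
  have nB : ∀ y, ∃ ζ : X, ∀ x, (∑ i ∈ S ×ˢ Finset.univ, B i) x y = x ζ := by
    intro y
    have : ∀ i, ∃ ζ : X, ∀ x, B i x y = x ζ := fun ⟨j, b⟩ => by
      cases b
      · exact h.normal _ _ _
      · exact h.normal _ _ _
    choose ζ hζ using this
    exact ⟨∑ i ∈ S ×ˢ Finset.univ, ζ i, fun x => by simp only [sum_apply, map_sum, hζ]⟩
  have hC := one_le_cT T
  obtain ⟨δ₂, d2, d2'⟩ : ∃ δ₂ : ℝ, 0 < δ₂ ∧ δ₂ * (2 * η + 3 * R + 1) = η' - η :=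
    ⟨(η' - η) / (2 * η + 3 * R + 1), div_pos (sub_pos.2 h1) (by positivity),
      div_mul_cancel₀ _ (by positivity)⟩
  obtain ⟨F, F0, hF⟩ : ∃ F : ℝ, 0 ≤ F ∧ ∀ j ∈ S, ‖B (j, true)‖ ≤ F :=
    ⟨∑ j ∈ S, ‖B (j, true)‖, Finset.sum_nonneg fun _ _ => ContinuousLinearMap.opNorm_nonneg _,
      fun j hj => Finset.single_le_sum (f := fun j => ‖B (j, true)‖)
        (fun _ _ => ContinuousLinearMap.opNorm_nonneg _) hj⟩
  obtain ⟨ε₂, e2, c1, e2'⟩ : ∃ ε₂ : ℝ, 0 < ε₂ ∧ ε₂ ≤ δ₂ ∧ F * ε₂ ^ 2 ≤ (δ₂ * ε) ^ 2 / 4 := by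
    refine ⟨min δ₂ (δ₂ * ε / (2 * (F + 1))), lt_min d2 (by positivity), min_le_left _ _, ?_⟩
    have h3 := (le_div_iff₀ (by positivity)).1 (min_le_right δ₂ (δ₂ * ε / (2 * (F + 1))))
    have h5 : 0 < min δ₂ (δ₂ * ε / (2 * (F + 1))) := lt_min d2 (by positivity)
    generalize min δ₂ (δ₂ * ε / (2 * (F + 1))) = r at *
    have h4 := pow_le_pow_left₀ (by positivity) h3 2
    nlinarith [sq_nonneg r, mul_nonneg (sq_nonneg r) F0, mul_nonneg (sq_nonneg r) (sq_nonneg F)]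
  obtain ⟨ε₁, e1, e1'⟩ : ∃ ε₁ : ℝ, 0 < ε₁ ∧ S.card * ε₁ * (3 + 2 * cT T) ≤ ε₂ := by
    refine ⟨ε₂ / ((3 + 2 * cT T) * (S.card + 1)), by positivity, ?_⟩
    rw [← mul_div_assoc, div_mul_eq_mul_div, div_le_iff₀ (by positivity)]
    nlinarith
  obtain ⟨σ, σ0, hσ⟩ := h.jb.small e1
  obtain ⟨ψ, hψ, x, x1, x2, x3⟩ := criterion pB nB hA (by linarith) h2
    (δ := min (σ ^ 2 / 2 * ε ^ 2) ((δ₂ * ε) ^ 2 / 4)) (by positivity)
  have hv : ∀ j, ∃ v', j ∈ S → Le T v' (v j) ∧ ‖(v j - v') (φ j)‖ ≤ ε ∧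
      ‖T v' v' x‖ ≤ ε₁ := by
    intro j
    by_cases hj : j ∈ S
    · obtain ⟨v', a1, a2, a3⟩ := h.shrink_tri (o.1 j hj) x (δ := σ ^ 2 / 2) (by positivity)
      refine ⟨v', fun _ => ⟨a1, ?_, hσ v' x a1.tri x1 fun f sf => (a2 f sf).trans (by linarith)⟩⟩
      have a4 := (a3 _ _ (p j)).2
      rw [hG j hj] at a4
      have a5 := (a4.trans (leB (j, false) (by simpa using hj) x)).trans
        (x3.trans (min_le_left _ _))
      exact le_of_sq_le_sq ((dom j _).trans (le_of_mul_le_mul_left a5 (by positivity))) hε.le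
    · exact ⟨0, fun h => absurd h hj⟩
  choose v' hv using hv
  have o' : OrthOn T S v' := ⟨fun j hj => (hv j hj).1.tri, fun i hi j hj hij =>
    (hv i hi).1.orth_of (hv j hj).1 h.jb (o.2 i hi j hj hij)⟩
  have tE := o'.tri_sum h.jb
  have LE := o'.L_sum h.jb subset_rfl
  set E := ∑ j ∈ S, v' j with hE
  obtain ⟨x₂, x₁, y, hd, -, -, a0, b2, b1⟩ := h.jb.peirce tE x
  have ny : ‖x - y‖ ≤ ε₂ := by
    have c1 : ‖T E E x‖ ≤ S.card * ε₁ := by
      rw [LE, sum_apply]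
      simpa using (norm_sum_le _ _).trans (Finset.sum_le_card_nsmul _ _ _ fun j hj => (hv j hj).2.2)
    have c2 := (mul_le_mul_of_nonneg_right c1 (by positivity)).trans e1'
    have c3 := norm_T_le (T := T) (h.jb.norm_le_one tE) (h.jb.norm_le_one tE) (le_refl ‖T E E x‖)
    have c4 : x - y = (3 : ℂ) • T E E x - (2 : ℂ) • T E E (T E E x) := by
      rw [show x - y = x₂ + x₁ by rw [hd]; abel, b2, b1]; module
    rw [c4]
    refine (norm_sub_le _ _).trans ?_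
    rw [norm_smul, norm_smul, Complex.norm_ofNat, Complex.norm_ofNat]
    nlinarith
  obtain ⟨u, tu, u0, u1, u2⟩ := h.exists_tri y ψ d2
  have Eu := u0 E (by rw [a0, Complex.ofReal_zero]; exact zero_smul ℂ y)
  refine ⟨v', u, ψ, hψ, fun j hj => ⟨(hv j hj).1, (hv j hj).2.1, ?_⟩, tu, ?_, fun w hw j hj => ?_⟩
  · have c1 : T E E (v' j) = v' j := by
      rw [LE, sum_apply, Finset.sum_eq_single_of_mem j hj fun i hi hij => o'.2 i hi j hj hij,
        o'.1 j hj]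
    rw [h.jb.symm, (h.jb.orth tE c1 Eu).2, zero_apply]
  · have c2 := (x - y).le_of_opNorm_le (ny.trans c1) ψ
    have c3 := norm_add_le ((x - y) ψ) (y ψ)
    rw [← add_apply, sub_add_cancel] at c3
    have c4 : ‖y‖ ≤ 1 + δ₂ := by
      have := norm_sub_le x (x - y)
      rw [sub_sub_cancel] at this
      linarith
    have c5 := mul_le_mul_of_nonneg_left (hA ψ hψ) d2.le
    have c6 := mul_le_mul_of_nonneg_right c4 (norm_nonneg (u ψ))
    refine le_of_mul_le_mul_left ?_ (show 0 < 1 + 2 * δ₂ by positivity)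
    nlinarith
  · have c1 := hw.re_le h.jb (p j)
    have c2 := u1 _ _ (p j)
    have c3 := (p j).sub_le x (x - y)
    have c4 := (leB (j, true) (by simpa using hj) x).trans (x3.trans (min_le_right _ _))
    have c5 := (B (j, true)).re_le (x - y)
    have c6 : ‖B (j, true)‖ * ‖x - y‖ ^ 2 ≤ F * ε₂ ^ 2 := mul_le_mul (hF j hj)
      (pow_le_pow_left₀ (norm_nonneg _) ny 2) (by positivity) F0
    rw [sub_sub_cancel] at c3
    change (T w w (s j) (ξ j)).re ≤ (T u u (s j) (ξ j)).re at c1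
    change (T y y (s j) (ξ j)).re ≤ 2 * (B (j, true) x x).re +
      2 * (B (j, true) (x - y) (x - y)).re at c3
    refine le_of_sq_le_sq ((dom j w).trans (c1.trans
      (le_of_mul_le_mul_left ?_ (show 0 < δ₂ ^ 2 by positivity)))) hε.le
    nlinarith

end JBW

end Pool.Agent.Lib.MP_05992d_an
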