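import Pool.Agent.Lib.MP_05992d_an.Small

/-!
Weak* limits and spectral tripotents.
-/

namespace Pool.Agent.Lib.MP_05992d_an

open Filter Topology Set NormedSpace

variable {X : Type*} [NormedAddCommGroup X] [NormedSpace ℂ X]
  {T : TripleProduct (StrongDual ℂ X)}

/-- Weak* limit along a fixed free ultrafilter. -/
def WL (x : ℕ → StrongDual ℂ X) (z : StrongDual ℂ X) : Prop :=
  ∀ φ : X, Tendsto (fun n => x n φ) (hyperfilter ℕ) (𝓝 (z φ))

namespace WL

variable {x y : ℕ → StrongDual ℂ X} {z z' : StrongDual ℂ X}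

theorem unique (h : WL x z) (h' : WL x z') : z = z' :=
  ContinuousLinearMap.ext fun φ => tendsto_nhds_unique (h φ) (h' φ)

theorem congr (h : WL x z) (e : ∀ᶠ n in atTop, x n = y n) : WL y z := fun φ =>
  (h φ).congr' ((e.mono fun n hn => by simp only [hn]).filter_mono Nat.hyperfilter_le_atTop)

theorem const (z : StrongDual ℂ X) : WL (fun _ => z) z := fun _ => tendsto_const_nhds

theorem eq_of_eventually (h : WL x z) (e : ∀ᶠ n in atTop, x n = z') : z = z' :=
  (h.congr e).unique (const z')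

theorem sub (h : WL x z) (h' : WL y z') : WL (fun n => x n - y n) (z - z') := fun φ =>
  (h φ).sub (h' φ)

theorem add (h : WL x z) (h' : WL y z') : WL (fun n => x n + y n) (z + z') := fun φ =>
  (h φ).add (h' φ)

theorem smul (h : WL x z) (c : ℂ) : WL (fun n => c • x n) (c • z) := fun φ =>
  (h φ).const_smul c

theorem apply_le (h : WL x z) {φ : X} {B : ℝ} (e : ∀ᶠ n in atTop, ‖x n φ‖ ≤ B) : ‖z φ‖ ≤ B :=
  le_of_tendsto (h φ).norm (e.filter_mono Nat.hyperfilter_le_atTop)

theorem norm_le (h : WL x z) {B : ℝ} (hB : 0 ≤ B) (e : ∀ᶠ n in atTop, ‖x n‖ ≤ B) : ‖z‖ ≤ B :=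
  z.opNorm_le_bound hB fun φ => h.apply_le (e.mono fun n hn => (x n).le_of_opNorm_le hn φ)

theorem map (h : WL x z) {F : StrongDual ℂ X → StrongDual ℂ X}
    (hF : Continuous fun a : WeakDual ℂ X => StrongDual.toWeakDual (F (WeakDual.toStrongDual a))) :
    WL (fun n => F (x n)) (F z) :=
  tendsto_iff_forall_eval_tendsto_topDualPairing.1 ((hF.tendsto (StrongDual.toWeakDual z)).comp
    ((tendsto_iff_forall_eval_tendsto_topDualPairing
      (f := fun n => StrongDual.toWeakDual (x n))).2 h))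

end WL

theorem exists_WL (x : ℕ → StrongDual ℂ X) {B : ℝ} (h : ∀ n, ‖x n‖ ≤ B) : ∃ z, WL x z := by
  obtain ⟨z, -, hz⟩ := (WeakDual.isCompact_closedBall (0 : StrongDual ℂ X) B).ultrafilter_le_nhds'
    ((hyperfilter ℕ).map fun n => StrongDual.toWeakDual (x n))
    (Ultrafilter.mem_map.2 (univ_mem' fun n => by simpa using h n))
  exact ⟨WeakDual.toStrongDual z, tendsto_iff_forall_eval_tendsto_topDualPairing.1 hz⟩

/-- Continuous approximations of the indicator function of `(δ, ∞)`. -/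
noncomputable def cut (δ : ℝ) (n : ℕ) : C(ℝ, ℝ) :=
  ⟨fun t => max 0 (min 1 (2 ^ (n + 1) * (t - δ) - 1)), by fun_prop⟩

theorem cut_nonneg (δ : ℝ) (n : ℕ) (t : ℝ) : 0 ≤ cut δ n t := le_max_left _ _

theorem cut_le_one (δ : ℝ) (n : ℕ) (t : ℝ) : cut δ n t ≤ 1 := max_le zero_le_one (min_le_left _ _)

theorem cut_eq_zero {δ : ℝ} {n : ℕ} {t : ℝ} (h : 2 ^ (n + 1) * (t - δ) ≤ 1) : cut δ n t = 0 :=
  max_eq_left ((min_le_right _ _).trans (by linarith))

theorem cut_of_le {δ : ℝ} (n : ℕ) {t : ℝ} (h : t ≤ δ) : cut δ n t = 0 :=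
  cut_eq_zero ((mul_nonpos_of_nonneg_of_nonpos (by positivity) (by linarith)).trans zero_le_one)

theorem cut_eq_one {δ : ℝ} {n : ℕ} {t : ℝ} (h : 1 ≤ 2 ^ n * (t - δ)) : cut δ n t = 1 := by
  change max 0 (min 1 _) = 1
  rw [min_eq_left (by rw [pow_succ]; linarith), max_eq_right zero_le_one]

theorem cut_mul {δ : ℝ} {a b : ℕ} (h : a < b) : cut δ a * cut δ b = cut δ a := by
  ext t
  rcases le_total (2 ^ (a + 1) * (t - δ)) 1 with h1 | h1
  · simp [cut_eq_zero h1]
  · have h2 : 0 ≤ t - δ := by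
      by_contra h3
      have := mul_neg_of_pos_of_neg (show (0 : ℝ) < 2 ^ (a + 1) by positivity) (not_le.1 h3)
      linarith
    simp [cut_eq_one (h1.trans (mul_le_mul_of_nonneg_right
      (pow_le_pow_right₀ one_le_two (show a + 1 ≤ b from h)) h2))]

theorem eventually_cut (δ : ℝ) {η : ℝ} (hη : 0 < η) :
    ∀ᶠ n in atTop, ∀ t, δ + η ≤ t → cut δ n t = 1 := by
  filter_upwards [(tendsto_pow_atTop_atTop_of_one_lt (one_lt_two (α := ℝ))).eventually_ge_atTop
    η⁻¹] with n hn t ht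
  refine cut_eq_one (le_trans ?_ (mul_le_mul hn (show η ≤ t - δ by linarith) hη.le (by positivity)))
  rw [inv_mul_cancel₀ hη.ne']

/-- `E g` plays the role of `w * g` times the indicator function of `(δ, ∞)`. -/
def Spec (Φ : C(ℝ, ℝ) →+ StrongDual ℂ X) (δ : ℝ) (E : C(ℝ, ℝ) → StrongDual ℂ X) : Prop :=
  ∀ g, WL (fun n => Φ (g * cut δ n)) (E g)

variable {w : C(ℝ, ℝ)} {K : Set ℝ} {Φ : C(ℝ, ℝ) →+ StrongDual ℂ X} {δ : ℝ}
  {E : C(ℝ, ℝ) → StrongDual ℂ X}

theorem Calc.exists_spec (c : Calc T w K Φ) (δ : ℝ) : ∃ E, Spec Φ δ E := by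
  have : ∀ g : C(ℝ, ℝ), ∃ z, WL (fun n => Φ (g * cut δ n)) z := by
    intro g
    obtain ⟨B, hB⟩ := c.compact.exists_bound_of_continuousOn (f := fun t => w t * g t) (by fun_prop)
    refine exists_WL _ (B := |B|) fun n => c.bound _ _ (abs_nonneg _) fun t ht => ?_
    rw [ContinuousMap.mul_apply, ← mul_assoc, abs_mul, abs_of_nonneg (cut_nonneg _ _ _)]
    exact (mul_le_of_le_one_right (abs_nonneg _) (cut_le_one _ _ _)).trans
      ((hB t ht).trans (le_abs_self _))
  exact ⟨fun g => (this g).choose, fun g => (this g).choose_spec⟩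

theorem Spec.cut (s : Spec Φ δ E) (g : C(ℝ, ℝ)) (a : ℕ) : E (g * cut δ a) = Φ (g * cut δ a) :=
  (s _).eq_of_eventually ((eventually_gt_atTop a).mono fun n hn => by
    simp only [mul_assoc, cut_mul hn])

theorem Spec.congr (s : Spec Φ δ E) (c : Calc T w K Φ) {g k : C(ℝ, ℝ)}
    (e : ∀ t ∈ K, δ < t → w t * g t = w t * k t) : E g = E k :=
  ((s g).congr (Eventually.of_forall fun n => c.congr fun t ht => by
    rcases le_or_gt t δ with h | h
    · simp [cut_of_le n h]
    · simp only [ContinuousMap.mul_apply, ← mul_assoc, e t ht h])).unique (s k)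

theorem Spec.sub_smul (s : Spec Φ δ E) (c : Calc T w K Φ) (g k : C(ℝ, ℝ)) (r : ℝ) :
    E (g - r • k) = E g - (r : ℂ) • E k :=
  (s _).unique (((s g).sub ((s k).smul r)).congr (Eventually.of_forall fun n => by
    simp only [← c.smul, ← map_sub, sub_mul, smul_mul_assoc]))

namespace JBW

variable (h : JBW T)
include h

theorem left {x : ℕ → StrongDual ℂ X} {z : StrongDual ℂ X} (l : WL x z) (b c : StrongDual ℂ X) :
    WL (fun n => T (x n) b c) (T z b c) :=
  l.map (F := fun a => T a b c) (h.weakStar_left b c)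

theorem mid {x : ℕ → StrongDual ℂ X} {z : StrongDual ℂ X} (l : WL x z) (a c : StrongDual ℂ X) :
    WL (fun n => T a (x n) c) (T a z c) :=
  l.map (F := fun b => T a b c) (h.weakStar_mid a c)

theorem right {x : ℕ → StrongDual ℂ X} {z : StrongDual ℂ X} (l : WL x z) (a b : StrongDual ℂ X) :
    WL (fun n => T a b (x n)) (T a b z) := by
  simpa only [h.jb.symm a b] using h.left l b a

theorem normal (b c : StrongDual ℂ X) (ξ : X) : ∃ η : X, ∀ a, T a b c ξ = a η := by
  obtain ⟨η, hη⟩ := LinearMap.dualEmbedding_surjective (topDualPairing ℂ X)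
    { toFun := fun a => T a b c ξ
      map_add' := fun a a' => by
        have := map_add T (WeakDual.toStrongDual a) (WeakDual.toStrongDual a')
        exact congrArg (fun S => S b c ξ) this
      map_smul' := fun r a => by
        have := map_smul T r (WeakDual.toStrongDual a)
        exact congrArg (fun S => S b c ξ) this
      cont := (WeakDual.eval_continuous ξ).comp (h.weakStar_left b c) }
  exact ⟨η, fun a => (congrArg (fun f => f a) hη).symm⟩

variable (c : Calc T w K Φ) (s : Spec Φ δ E)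
include c s

theorem EΦΦ (g a b : C(ℝ, ℝ)) : T (E g) (Φ a) (Φ b) = E (g * a * b * (w * w)) :=
  (h.left (s g) _ _).unique ((s _).congr (Eventually.of_forall fun n => by
    rw [c.mul]; congr 1; ring))

theorem ΦΦE (g a b : C(ℝ, ℝ)) : T (Φ a) (Φ b) (E g) = E (a * b * g * (w * w)) := by
  rw [h.jb.symm, h.EΦΦ c s]; congr 1; ring

theorem ΦEΦ (g a b : C(ℝ, ℝ)) : T (Φ a) (E g) (Φ b) = E (a * g * b * (w * w)) :=
  (h.mid (s g) _ _).unique ((s _).congr (Eventually.of_forall fun n => by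
    rw [c.mul]; congr 1; ring))

theorem EEΦ (g k b : C(ℝ, ℝ)) : T (E g) (E k) (Φ b) = E (g * k * b * (w * w)) :=
  (h.left (s g) _ _).unique ((s _).congr (Eventually.of_forall fun n => by
    rw [h.ΦEΦ c s, ← s.cut]; congr 1; ring))

theorem ΦEE (g k b : C(ℝ, ℝ)) : T (Φ b) (E g) (E k) = E (b * g * k * (w * w)) := by
  rw [h.jb.symm, h.EEΦ c s]; congr 1; ring

theorem EΦE (g k b : C(ℝ, ℝ)) : T (E g) (Φ b) (E k) = E (g * b * k * (w * w)) :=
  (h.left (s g) _ _).unique ((s _).congr (Eventually.of_forall fun n => by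
    rw [h.ΦΦE c s, ← s.cut]; congr 1; ring))

theorem EEE (g k l : C(ℝ, ℝ)) : T (E g) (E k) (E l) = E (g * k * l * (w * w)) :=
  (h.left (s g) _ _).unique ((s _).congr (Eventually.of_forall fun n => by
    rw [h.ΦEE c s, ← s.cut]; congr 1; ring))

end JBW

end Pool.Agent.Lib.MP_05992d_an
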